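import Pool.Agent.Y965.GP.Fin2

/-! The densities of the invariant sets along the sequences `⌊n ^ c⌋`, uniformly in the set. -/

set_option autoImplicit false

namespace Pool.Agent.Y965.GP

open Finset Filter Topology Pool.Agent.Y965.PS

/-- `S` is a union of classes of trajectories which meet -/
def InvT (T : ℤ → ℤ) (S : Set ℤ) : Prop := ∀ x : ℤ, x ∈ S ↔ T x ∈ S

theorem inv_iter {T : ℤ → ℤ} {S : Set ℤ} (hS : InvT T S) (k : ℕ) (x : ℤ) : x ∈ S ↔ T^[k] x ∈ S := by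
  induction k generalizing x with
  | zero => rfl
  | succ k ih => rw [Function.iterate_succ_apply, ← ih, hS x]

/-- the natural density of `S` among the integers of sign `s` -/
def DSs (s : ℤ) (S : Set ℤ) (δ : ℝ) : Prop :=
  Tendsto (fun N : ℕ => (∑ x ∈ Icc 1 N, ind S (s * (x : ℤ))) / N) atTop (𝓝 δ)

theorem agree {T : ℤ → ℤ} {S R : Set ℤ} (hS : InvT T S) (hR : InvT T R) (y : ℝ)
    (h : ∀ x : ℤ, |(x : ℝ)| ≤ y → (x ∈ S ↔ x ∈ R)) (x : ℤ) :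
    |ind S x - ind R x| ≤ ind (Av T y) x := by
  unfold ind
  by_cases hst : x ∈ Av T y
  · rw [if_pos hst]
    split_ifs <;> simp
  · rw [if_neg hst]
    have hst' : ¬ ∀ k : ℕ, y < |((T^[k] x : ℤ) : ℝ)| := hst
    push Not at hst'
    obtain ⟨k, hk⟩ := hst'
    have e1 : x ∈ S ↔ x ∈ R := by
      rw [inv_iter hS k, inv_iter hR k]
      exact h _ hk
    by_cases hh : x ∈ S
    · rw [if_pos hh, if_pos (e1.mp hh)]
      simp
    · rw [if_neg hh, if_neg (fun h => hh (e1.mpr h))]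
      simp

open Classical in
/-- an invariant set with the given elements of small absolute value -/
noncomputable def rep (T : ℤ → ℤ) (y : ℕ) (A : Finset ℤ) : Set ℤ :=
  if h : ∃ S : Set ℤ, InvT T S ∧ ∀ x : ℤ, |(x : ℝ)| ≤ y → (x ∈ S ↔ x ∈ A) then h.choose else ∅

theorem rep_inv (T : ℤ → ℤ) (y : ℕ) (A : Finset ℤ) : InvT T (rep T y A) := by
  unfold rep
  split_ifs with h
  · exact h.choose_spec.1
  · intro x
    simp

theorem rep_spec (T : ℤ → ℤ) (y : ℕ) (A : Finset ℤ) {S : Set ℤ} (hS : InvT T S)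
    (h : ∀ x : ℤ, |(x : ℝ)| ≤ y → (x ∈ S ↔ x ∈ A)) (x : ℤ) (hx : |(x : ℝ)| ≤ y) : x ∈ S ↔ x ∈ rep T y A := by
  have hex : ∃ S : Set ℤ, InvT T S ∧ ∀ x : ℤ, |(x : ℝ)| ≤ y → (x ∈ S ↔ x ∈ A) := ⟨S, hS, h⟩
  unfold rep
  rw [dif_pos hex, hex.choose_spec.2 x hx]
  exact h x hx

/-- uniformity of the natural densities -/
theorem unif_nat {T : ℤ → ℤ} {s : ℤ} (hdens : ∀ S : Set ℤ, InvT T S → ∃ δ : ℝ, DSs s S δ)
    (hav : ∀ ε : ℝ, 0 < ε → ∃ y : ℕ, ∀ N : ℕ, 1 ≤ N → ∑ x ∈ Icc 1 N, ind (Av T y) (s * (x : ℤ)) ≤ ε * N)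
    {ε : ℝ} (hε : 0 < ε) : ∃ N0 : ℕ, ∀ N : ℕ, N0 ≤ N → ∀ S : Set ℤ, InvT T S → ∀ δ : ℝ, DSs s S δ →
      |(∑ x ∈ Icc 1 N, ind S (s * (x : ℤ))) / N - δ| ≤ ε := by
  classical
  obtain ⟨y, hy⟩ := hav (ε / 4) (by positivity)
  have hA : ∀ A : Finset ℤ, ∃ NA : ℕ, ∀ N : ℕ, NA ≤ N → ∀ δ : ℝ, DSs s (rep T y A) δ →
      |(∑ x ∈ Icc 1 N, ind (rep T y A) (s * (x : ℤ))) / N - δ| ≤ ε / 4 := by
    intro A
    obtain ⟨δA, hδA⟩ := hdens _ (rep_inv T y A)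
    have h1 := hδA
    unfold DSs at h1
    rw [Metric.tendsto_atTop] at h1
    obtain ⟨NA, hNA⟩ := h1 (ε / 4) (by positivity)
    refine ⟨NA, fun N hN δ hδ => ?_⟩
    have h2 : δ = δA := tendsto_nhds_unique hδ hδA
    have h3 := hNA N hN
    rw [Real.dist_eq] at h3
    rw [h2]
    exact h3.le
  choose NA hNA using hA
  refine ⟨max 1 ((Finset.Icc (-(y : ℤ)) y).powerset.sup NA), fun N hN S hS δ hδ => ?_⟩
  have hN1' : 1 ≤ N := (le_max_left _ _).trans hN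
  have hNp : (0 : ℝ) < N := by exact_mod_cast hN1'
  set A : Finset ℤ := (Finset.Icc (-(y : ℤ)) y).filter (fun x => x ∈ S) with hAdef
  have hAmem : A ∈ (Finset.Icc (-(y : ℤ)) y).powerset := by
    rw [Finset.mem_powerset]
    exact Finset.filter_subset _ _
  have hNNA : NA A ≤ N := ((Finset.le_sup (f := NA) hAmem).trans (le_max_right _ _)).trans hN
  have hSA : ∀ x : ℤ, |(x : ℝ)| ≤ y → (x ∈ S ↔ x ∈ A) := by
    intro x hx
    have hx' : |x| ≤ (y : ℤ) := by exact_mod_cast hx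
    rw [hAdef, mem_filter, Finset.mem_Icc, ← abs_le]
    exact ⟨fun h => ⟨hx', h⟩, fun h => h.2⟩
  have hag := agree hS (rep_inv T y A) y (rep_spec T y A hS hSA)
  obtain ⟨δA, hδA⟩ := hdens _ (rep_inv T y A)
  have h1 := hNA A N hNNA δA hδA
  have hdiff : ∀ X : ℕ, 1 ≤ X → |(∑ x ∈ Icc 1 X, ind S (s * (x : ℤ))) / X -
      (∑ x ∈ Icc 1 X, ind (rep T y A) (s * (x : ℤ))) / X| ≤ ε / 4 := by
    intro X hX
    have hXp : (0 : ℝ) < X := by exact_mod_cast hX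
    rw [← sub_div, ← Finset.sum_sub_distrib, abs_div, abs_of_pos hXp, div_le_iff₀ hXp]
    exact ((Finset.abs_sum_le_sum_abs _ _).trans (Finset.sum_le_sum fun t _ => hag _)).trans (hy X hX)
  have h2 : |δ - δA| ≤ ε / 4 := by
    have ht : Tendsto (fun X : ℕ => |(∑ x ∈ Icc 1 X, ind S (s * (x : ℤ))) / X -
        (∑ x ∈ Icc 1 X, ind (rep T y A) (s * (x : ℤ))) / X|) atTop (𝓝 |δ - δA|) := (hδ.sub hδA).abs
    apply le_of_tendsto ht
    filter_upwards [eventually_ge_atTop 1] with X hX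
    exact hdiff X hX
  have h3 := hdiff N hN1'
  rw [abs_le] at h1 h2 h3 ⊢
  constructor <;> linarith [h1.1, h1.2, h2.1, h2.2, h3.1, h3.2]

theorem DSs_range {s : ℤ} {S : Set ℤ} {δ : ℝ} (h : DSs s S δ) : 0 ≤ δ ∧ δ ≤ 1 := by
  constructor
  · refine ge_of_tendsto h ?_
    filter_upwards with N
    exact div_nonneg (sum_nonneg fun _ _ => ind_nonneg _ _) (Nat.cast_nonneg _)
  · refine le_of_tendsto h ?_
    filter_upwards [eventually_ge_atTop 1] with N hN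
    have hNp : (0 : ℝ) < N := by exact_mod_cast hN
    rw [div_le_one hNp]
    calc ∑ x ∈ Icc 1 N, ind S (s * (x : ℤ)) ≤ ∑ x ∈ Icc 1 N, (1 : ℝ) :=
          sum_le_sum fun n _ => (abs_le.1 (ind_abs _ _)).2
      _ = N := by simp

/-- uniformity of the densities along the sequence -/
theorem unif_seq {T : ℤ → ℤ} {d : ℕ} {s : ℤ} {a c K : ℝ} (ha0 : 0 < a) (hc : 1 < c)
    (htr : ∀ N : ℕ, 1 ≤ N → ∀ F : ℤ → ℝ, SyncN d T ⌊(N : ℝ) ^ c⌋₊ F →
      |∑ n ∈ Icc 1 N, F (s * ⌊(n : ℝ) ^ c⌋) - ∑ x ∈ Icc 1 ⌊(N : ℝ) ^ c⌋₊, F (s * (x : ℤ)) * ell (1 / c) x|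
        ≤ K * (N : ℝ) ^ (1 - a))
    (hnat : ∀ ε : ℝ, 0 < ε → ∃ N0 : ℕ, ∀ N : ℕ, N0 ≤ N → ∀ S : Set ℤ, InvT T S → ∀ δ : ℝ, DSs s S δ →
      |(∑ x ∈ Icc 1 N, ind S (s * (x : ℤ))) / N - δ| ≤ ε)
    {ε : ℝ} (hε : 0 < ε) : ∃ N0 : ℕ, ∀ N : ℕ, N0 ≤ N → ∀ S : Set ℤ, InvT T S → ∀ δ : ℝ, DSs s S δ →
      |(∑ n ∈ Icc 1 N, ind S (s * ⌊(n : ℝ) ^ c⌋)) / N - δ| ≤ ε := by
  have hc0 : 0 < c := by linarith
  have hγ0 : 0 < 1 / c := by positivity
  have hγ1 : 1 / c < 1 := by rw [div_lt_one hc0]; exact hc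
  obtain ⟨N0, hN0⟩ := hnat (ε / 8) (by positivity)
  -- large `N`
  have hlim : Tendsto (fun N : ℕ => |K| * (N : ℝ) ^ (-a) + (N0 + 1) * (N : ℝ)⁻¹) atTop (𝓝 (|K| * 0 + (N0 + 1) * 0)) := by
    refine Tendsto.add ?_ ?_
    · exact ((tendsto_rpow_neg_atTop ha0).comp tendsto_natCast_atTop_atTop).const_mul _
    · exact (tendsto_inv_atTop_zero.comp tendsto_natCast_atTop_atTop).const_mul _
  rw [mul_zero, mul_zero, add_zero] at hlim
  obtain ⟨N2, hN2⟩ := (hlim.eventually (gt_mem_nhds (by positivity : (0 : ℝ) < ε / 2))).exists_forall_of_atTop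
  refine ⟨max 1 N2, fun N hN S hS δ hδ => ?_⟩
  have hN1' : 1 ≤ N := (le_max_left _ _).trans hN
  have hNp : (0 : ℝ) < N := by exact_mod_cast hN1'
  have hN1R : (1 : ℝ) ≤ N := by exact_mod_cast hN1'
  have hsmall := hN2 N ((le_max_right _ _).trans hN)
  obtain ⟨hδ0, hδ1⟩ := DSs_range hδ
  have h1 := htr N hN1' (ind S) ⟨ind_abs S, fun k x x' _ _ _ he => by
    apply ind_congr
    rw [inv_iter hS k, he, ← inv_iter hS k]⟩
  set M := ⌊(N : ℝ) ^ c⌋₊ with hM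
  have h2 : ∀ t : ℕ, |∑ x ∈ Icc 1 t, ind S (s * (x : ℤ)) - δ * t| ≤ ε / 8 * t + N0 := by
    intro t
    rcases Nat.eq_zero_or_pos t with h0 | h0
    · rw [h0]; simp
    · have htp : (0 : ℝ) < t := by exact_mod_cast h0
      rcases lt_or_ge t N0 with hlt | hge
      · have h3 : 0 ≤ ∑ x ∈ Icc 1 t, ind S (s * (x : ℤ)) := sum_nonneg fun _ _ => ind_nonneg _ _
        have h4 : ∑ x ∈ Icc 1 t, ind S (s * (x : ℤ)) ≤ t := by
          calc ∑ x ∈ Icc 1 t, ind S (s * (x : ℤ)) ≤ ∑ x ∈ Icc 1 t, (1 : ℝ) :=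
                sum_le_sum fun n _ => (abs_le.1 (ind_abs _ _)).2
            _ = t := by simp
        have h5 : (t : ℝ) ≤ N0 := by exact_mod_cast hlt.le
        have h6 : 0 ≤ ε / 8 * t := by positivity
        rw [abs_le]
        constructor <;> nlinarith
      · have h3 := hN0 t hge S hS δ hδ
        have h4 : |∑ x ∈ Icc 1 t, ind S (s * (x : ℤ)) - δ * t| = |(∑ x ∈ Icc 1 t, ind S (s * (x : ℤ))) / t - δ| * t := by
          rw [← abs_of_pos htp, ← abs_mul, abs_of_pos htp]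
          congr 1
          field_simp
        rw [h4]
        have h5 := mul_le_mul_of_nonneg_right h3 htp.le
        have h6 : (0 : ℝ) ≤ N0 := Nat.cast_nonneg _
        linarith
  have h3 := abel hγ0 hγ1 (a := fun x : ℕ => ind S (s * (x : ℤ))) (δ := δ)
    (ε := ε / 8) (C := N0) (by positivity) (Nat.cast_nonneg _) h2 M
  have h4 := Mpow_le hc hN1'
  rw [← hM] at h4
  have h5 : (N : ℝ) ≤ ((M : ℝ) + 1) ^ (1 / c) := by
    have h6 : (N : ℝ) ^ c ≤ (M : ℝ) + 1 := (Nat.lt_floor_add_one _).le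
    calc (N : ℝ) = ((N : ℝ) ^ c) ^ (1 / c) := by
          rw [← Real.rpow_mul hNp.le, one_div, mul_inv_cancel₀ hc0.ne', Real.rpow_one]
      _ ≤ _ := Real.rpow_le_rpow (by positivity) h6 hγ0.le
  have h6 : ((M : ℝ) + 1) ^ (1 / c) ≤ N + 1 := by
    have g1 : (M : ℝ) ≤ (N : ℝ) ^ c := Nat.floor_le (by positivity)
    have g2 := pow_gap hc.le (Nat.cast_nonneg N : (0 : ℝ) ≤ N)
    calc ((M : ℝ) + 1) ^ (1 / c) ≤ (((N : ℝ) + 1) ^ c) ^ (1 / c) :=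
          Real.rpow_le_rpow (by positivity) (by linarith) (by positivity)
      _ = (N : ℝ) + 1 := by
          rw [← Real.rpow_mul (by positivity), one_div, mul_inv_cancel₀ hc0.ne', Real.rpow_one]
  set P := ((M : ℝ) + 1) ^ (1 / c) with hP
  have h7 : |δ * (P - 1) - δ * N| ≤ 1 := by
    rw [abs_le]
    constructor <;> nlinarith
  have h8 : |∑ n ∈ Icc 1 N, ind S (s * ⌊(n : ℝ) ^ c⌋) - δ * N| ≤ |K| * (N : ℝ) ^ (1 - a) + (ε / 8 * (2 * N) + N0) + 1 := by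
    have e1 : ∑ n ∈ Icc 1 N, ind S (s * ⌊(n : ℝ) ^ c⌋) - δ * N =
        (∑ n ∈ Icc 1 N, ind S (s * ⌊(n : ℝ) ^ c⌋) - ∑ x ∈ Icc 1 M, ind S (s * (x : ℤ)) * ell (1 / c) x) +
        (∑ x ∈ Icc 1 M, ind S (s * (x : ℤ)) * ell (1 / c) x - δ * (P - 1)) + (δ * (P - 1) - δ * N) := by ring
    rw [e1]
    refine (abs_add_le _ _).trans (add_le_add ((abs_add_le _ _).trans (add_le_add ?_ ?_)) h7)
    · refine h1.trans ?_
      exact mul_le_mul_of_nonneg_right (le_abs_self K) (by positivity)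
    · refine h3.trans ?_
      have : ε / 8 * P ≤ ε / 8 * (2 * N) := mul_le_mul_of_nonneg_left h4 (by positivity)
      linarith
  have h9 : |(∑ n ∈ Icc 1 N, ind S (s * ⌊(n : ℝ) ^ c⌋)) / N - δ| = |∑ n ∈ Icc 1 N, ind S (s * ⌊(n : ℝ) ^ c⌋) - δ * N| / N := by
    rw [← abs_of_pos hNp, ← abs_div, abs_of_pos hNp]
    congr 1
    field_simp
  rw [h9, div_le_iff₀ hNp]
  refine h8.trans ?_
  have h10 : (N : ℝ) ^ (1 - a) = N * (N : ℝ) ^ (-a) := by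
    rw [sub_eq_add_neg, Real.rpow_add hNp, Real.rpow_one]
  have h11 : (|K| * (N : ℝ) ^ (-a) + (N0 + 1) * (N : ℝ)⁻¹) * N = |K| * (N * (N : ℝ) ^ (-a)) + (N0 + 1) := by
    field_simp
  have h12 := mul_le_mul_of_nonneg_right hsmall.le hNp.le
  rw [h11] at h12
  rw [h10]
  have h13 : 0 < ε * N := by positivity
  have h14 : |K| * (N * (N : ℝ) ^ (-a)) + (ε / 8 * (2 * N) + N0) + 1 =
      (|K| * (N * (N : ℝ) ^ (-a)) + (N0 + 1)) + ε * N / 4 := by ring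
  rw [h14]
  have h15 : ε / 2 * N = ε * N / 2 := by ring
  rw [h15] at h12
  linarith

end Pool.Agent.Y965.GP
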