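import Pool.Agent.Y965.PS.Conv

/-! The dispersion inequality for functions of a key which is compatible with translations by `Q`. -/

set_option autoImplicit false

namespace Pool.Agent.Y965.GP

open Finset Pool.Agent.Y965.PS

/-- a key `κ` for the good integers, with the number `V` of the keys, the largest distance `H` of two good
integers with the same key, the period `Q` and the number `B` of the integers which are not good -/
structure KD {α : Type} [DecidableEq α] (N Q : ℕ) (H V B : ℝ) (Good : ℕ → Prop) (κ : ℕ → α) : Prop where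
  Q_pos : 1 ≤ Q
  H_one : 1 ≤ H
  good_shift : ∀ m v, Good (m + Q * v) ↔ Good m
  pair_shift : ∀ m h v, Good m → Good (m + h) → (κ (m + Q * v) = κ (m + Q * v + h) ↔ κ m = κ (m + h))
  small : ∀ m h, Good m → Good (m + h) → κ m = κ (m + h) → (h : ℝ) ≤ H
  image : ∀ S : Finset ℕ, (∀ m ∈ S, m ≤ N ∧ Good m) → ((S.image κ).card : ℝ) ≤ V
  bad : ∀ S : Finset ℕ, (∀ m ∈ S, (1 ≤ m ∧ m ≤ N) ∧ ¬ Good m) → (S.card : ℝ) ≤ B

variable {α : Type} [DecidableEq α] {N Q : ℕ} {H V B : ℝ} {Good : ℕ → Prop} {κ : ℕ → α}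

open Classical in
/-- the good integers of `(N1, N]` -/
noncomputable def GS (Good : ℕ → Prop) (N1 N : ℕ) : Finset ℕ := (Ioc N1 N).filter Good

theorem mem_GS {N1 N m : ℕ} : m ∈ GS Good N1 N ↔ (N1 < m ∧ m ≤ N) ∧ Good m := by
  classical
  unfold GS
  rw [mem_filter, mem_Ioc]

/-- two good integers with the same key -/
def Pair (Good : ℕ → Prop) (κ : ℕ → α) (h m : ℕ) : Prop := Good m ∧ Good (m + h) ∧ κ m = κ (m + h)

theorem pair_per (K : KD N Q H V B Good κ) (h m v : ℕ) : Pair Good κ h (m + Q * v) ↔ Pair Good κ h m := by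
  unfold Pair
  have e : m + Q * v + h = (m + h) + Q * v := by ring
  rw [K.good_shift]
  constructor
  · rintro ⟨g1, g2, g3⟩
    rw [e, K.good_shift] at g2
    exact ⟨g1, g2, (K.pair_shift m h v g1 g2).1 g3⟩
  · rintro ⟨g1, g2, g3⟩
    refine ⟨g1, ?_, (K.pair_shift m h v g1 g2).2 g3⟩
    rw [e, K.good_shift]
    exact g2

open Classical in
/-- the pairs at distance `h` -/
theorem pair_sum (K : KD N Q H V B Good κ) (N1 h : ℕ) {z : ℕ → ℂ} {β : ℝ}
    (hz : ∀ m0 J : ℕ, N1 < m0 → (∀ j < J, m0 + Q * j + h ≤ N) →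
      ‖∑ j ∈ range J, z (m0 + Q * j) * (starRingEnd ℂ) (z (m0 + Q * j + h))‖ ≤ β) (hβ : 0 ≤ β) :
    ‖∑ m ∈ (Ioc N1 (N - h)).filter (fun m : ℕ => Pair Good κ h m), z m * (starRingEnd ℂ) (z (m + h))‖
      ≤ Q * β := by
  rcases le_or_gt N h with hNh | hNh
  · rw [Nat.sub_eq_zero_of_le hNh, Ioc_eq_empty (by omega), filter_empty, sum_empty, norm_zero]
    positivity
  have hq0 : 0 < Q := K.Q_pos
  set φ : ℕ → ℂ := fun m => z m * (starRingEnd ℂ) (z (m + h)) with hφ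
  have h1 : ∑ m ∈ (Ioc N1 (N - h)).filter (fun m : ℕ => Pair Good κ h m), φ m =
      ∑ r ∈ range Q, ∑ m ∈ ((Ioc N1 (N - h)).filter (fun m : ℕ => Pair Good κ h m)).filter (fun m => m % Q = r), φ m := by
    rw [sum_fiberwise_of_maps_to]
    intro m _
    rw [mem_range]; exact Nat.mod_lt _ hq0
  rw [h1]
  refine (norm_sum_le _ _).trans ?_
  have h2 : ∀ r ∈ range Q, ‖∑ m ∈ ((Ioc N1 (N - h)).filter (fun m : ℕ => Pair Good κ h m)).filter (fun m => m % Q = r), φ m‖ ≤ β := by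
    intro r _
    have hper : ∀ m : ℕ, m % Q = r → (Pair Good κ h m ↔ Pair Good κ h r) := by
      intro m hm
      have h3 := Nat.mod_add_div m Q
      rw [hm] at h3
      rw [← h3]
      exact pair_per K h r _
    by_cases hP : Pair Good κ h r
    · have e : ((Ioc N1 (N - h)).filter (fun m : ℕ => Pair Good κ h m)).filter (fun m => m % Q = r)
          = (Ioc N1 (N - h)).filter (fun m => m % Q = r) := by
        ext m
        rw [mem_filter, mem_filter, mem_filter]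
        constructor
        · rintro ⟨⟨a, b⟩, c⟩; exact ⟨a, c⟩
        · rintro ⟨a, c⟩
          exact ⟨⟨a, (hper m c).2 hP⟩, c⟩
      rw [e]
      obtain ⟨m0, J, hm0, hJ, he⟩ := ap_filter N1 (N - h) Q r hq0
      rw [he, sum_image]
      · exact hz m0 J hm0 fun j hj => by have := hJ j hj; omega
      · intro a _ b _ hab
        have : Q * a = Q * b := by simpa using hab
        exact Nat.eq_of_mul_eq_mul_left hq0 this
    · have e : ((Ioc N1 (N - h)).filter (fun m : ℕ => Pair Good κ h m)).filter (fun m => m % Q = r) = ∅ := by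
        rw [Finset.eq_empty_iff_forall_notMem]
        intro m hm
        rw [mem_filter, mem_filter] at hm
        exact hP ((hper m hm.2).1 hm.1.2)
      rw [e, sum_empty, norm_zero]
      exact hβ
  refine (sum_le_sum h2).trans ?_
  rw [sum_const, card_range, nsmul_eq_mul]

open Classical in
/-- the ordered pairs of good integers with a common key -/
noncomputable def PP (Good : ℕ → Prop) (κ : ℕ → α) (N1 N : ℕ) : Finset (ℕ × ℕ) :=
  ((GS Good N1 N) ×ˢ (GS Good N1 N)).filter fun p => κ p.1 = κ p.2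

theorem mem_PP {N1 : ℕ} {p : ℕ × ℕ} : p ∈ PP Good κ N1 N ↔
    (p.1 ∈ GS Good N1 N ∧ p.2 ∈ GS Good N1 N) ∧ κ p.1 = κ p.2 := by
  classical
  unfold PP
  rw [mem_filter, mem_product]

open Classical in
theorem upper_pairs (K : KD N Q H V B Good κ) (N1 : ℕ) (z : ℕ → ℂ) :
    ∑ p ∈ (PP Good κ N1 N).filter (fun p => p.1 < p.2), z p.1 * (starRingEnd ℂ) (z p.2)
      = ∑ h ∈ Icc 1 ⌊H⌋₊, ∑ m ∈ (Ioc N1 (N - h)).filter (fun m : ℕ => Pair Good κ h m),
          z m * (starRingEnd ℂ) (z (m + h)) := by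
  rw [sum_sigma']
  refine sum_bij' (fun p _ => ⟨p.2 - p.1, p.1⟩) (fun q _ => (q.2, q.2 + q.1)) ?_ ?_ ?_ ?_ ?_
  · intro p hp
    rw [mem_filter, mem_PP, mem_GS, mem_GS] at hp
    obtain ⟨⟨⟨⟨a1, a2⟩, b1, b2⟩, hk⟩, hlt⟩ := hp
    rw [mem_sigma, mem_Icc, mem_filter, mem_Ioc]
    have e : p.1 + (p.2 - p.1) = p.2 := by omega
    refine ⟨⟨by dsimp only; omega, ?_⟩, ⟨by dsimp only; omega, by dsimp only; omega⟩, ?_⟩
    · apply Nat.le_floor
      refine K.small p.1 (p.2 - p.1) a2 ?_ ?_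
      · rw [e]; exact b2
      · rw [e]; exact hk
    · unfold Pair
      dsimp only
      rw [e]
      exact ⟨a2, b2, hk⟩
  · rintro ⟨h, m⟩ hq
    rw [mem_sigma, mem_Icc, mem_filter, mem_Ioc] at hq
    dsimp only at hq
    obtain ⟨⟨h1, h2⟩, ⟨h3, h4⟩, h5, h6, h7⟩ := hq
    rw [mem_filter, mem_PP, mem_GS, mem_GS]
    dsimp only
    refine ⟨⟨⟨⟨⟨h3, by omega⟩, h5⟩, ⟨by omega, by omega⟩, h6⟩, h7⟩, by omega⟩
  · intro p hp
    rw [mem_filter] at hp
    have : p.1 + (p.2 - p.1) = p.2 := by omega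
    simp only [this, Prod.mk.eta]
  · rintro ⟨h, m⟩ _
    simp
  · intro p hp
    rw [mem_filter] at hp
    have : p.1 + (p.2 - p.1) = p.2 := by omega
    simp only [this]

open Classical in
/-- THE DISPERSION INEQUALITY -/
theorem disp (K : KD N Q H V B Good κ) (N1 : ℕ) {F : ℕ → ℝ} (hF1 : ∀ m, |F m| ≤ 1)
    (hF2 : ∀ m m', N1 < m → N1 < m' → Good m → Good m' → κ m = κ m' → F m = F m')
    {z : ℕ → ℂ} (hz1 : ∀ m, ‖z m‖ ≤ 1) {β : ℕ → ℝ} (hβ : ∀ h, 0 ≤ β h)
    (hz : ∀ h : ℕ, 1 ≤ h → (h : ℝ) ≤ H → ∀ m0 J : ℕ, N1 < m0 →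
      (∀ j < J, m0 + Q * j + h ≤ N) →
      ‖∑ j ∈ range J, z (m0 + Q * j) * (starRingEnd ℂ) (z (m0 + Q * j + h))‖ ≤ β h) :
    ‖∑ m ∈ GS Good N1 N, (F m : ℂ) * z m‖ ^ 2 ≤ V * (N + 2 * (Q * ∑ h ∈ Icc 1 ⌊H⌋₊, β h)) := by
  set G := GS Good N1 N with hG
  set I := G.image κ with hI
  set A : α → ℂ := fun p => ∑ m ∈ G.filter (fun m => κ m = p), z m with hA
  -- step 1
  have h1 : ‖∑ m ∈ G, (F m : ℂ) * z m‖ ≤ ∑ p ∈ I, ‖A p‖ := by
    rw [← sum_fiberwise_of_maps_to (s := G) (t := I) (g := κ) (fun m hm => mem_image_of_mem _ hm)]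
    refine (norm_sum_le _ _).trans (sum_le_sum fun p hp => ?_)
    rw [hI, mem_image] at hp
    obtain ⟨m0, hm0, hp0⟩ := hp
    have e : ∑ m ∈ G.filter (fun m => κ m = p), (F m : ℂ) * z m = (F m0 : ℂ) * A p := by
      rw [hA]
      dsimp only
      rw [mul_sum]
      apply sum_congr rfl
      intro m hm
      rw [mem_filter] at hm
      have h2 : κ m = κ m0 := by rw [hm.2, hp0]
      rw [hF2 m m0 (mem_GS.1 hm.1).1.1 (mem_GS.1 hm0).1.1 (mem_GS.1 hm.1).2 (mem_GS.1 hm0).2 h2]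
    rw [e, norm_mul, Complex.norm_real, Real.norm_eq_abs]
    have := hF1 m0
    nlinarith [norm_nonneg (A p)]
  -- step 2
  have h2 : (∑ p ∈ I, ‖A p‖) ^ 2 ≤ I.card * ∑ p ∈ I, ‖A p‖ ^ 2 := sq_sum_le_card_mul_sum_sq
  -- step 3
  have h3 : ((∑ p ∈ I, ‖A p‖ ^ 2 : ℝ) : ℂ) = ∑ p ∈ PP Good κ N1 N, z p.1 * (starRingEnd ℂ) (z p.2) := by
    have e1 : ∑ p ∈ PP Good κ N1 N, z p.1 * (starRingEnd ℂ) (z p.2)
        = ∑ m ∈ G, ∑ m' ∈ G.filter (fun m' => κ m = κ m'), z m * (starRingEnd ℂ) (z m') := by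
      unfold PP
      rw [sum_filter, sum_product]
      exact sum_congr rfl fun m _ => (sum_filter _ _).symm
    rw [e1, ← sum_fiberwise_of_maps_to (s := G) (t := I) (g := κ) (fun m hm => mem_image_of_mem _ hm)]
    push_cast
    apply sum_congr rfl
    intro p _
    have e2 : ∑ m ∈ G.filter (fun m => κ m = p), ∑ m' ∈ G.filter (fun m' => κ m = κ m'), z m * (starRingEnd ℂ) (z m')
        = ∑ m ∈ G.filter (fun m => κ m = p), ∑ m' ∈ G.filter (fun m' => κ m' = p), z m * (starRingEnd ℂ) (z m') := by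
      apply sum_congr rfl
      intro m hm
      rw [mem_filter] at hm
      rw [hm.2]
      apply sum_congr _ fun _ _ => rfl
      ext m'
      rw [mem_filter, mem_filter]
      constructor
      · rintro ⟨a, b⟩; exact ⟨a, b.symm⟩
      · rintro ⟨a, b⟩; exact ⟨a, b.symm⟩
    rw [e2, ← sum_mul_sum, ← map_sum]
    rw [← Complex.ofReal_pow, ← Complex.normSq_eq_norm_sq, Complex.mul_conj]
  -- step 4
  set D : ℂ := ∑ p ∈ (PP Good κ N1 N).filter (fun p => p.1 < p.2), z p.1 * (starRingEnd ℂ) (z p.2) with hD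
  have h4 : ∑ p ∈ PP Good κ N1 N, z p.1 * (starRingEnd ℂ) (z p.2)
      = ∑ p ∈ (PP Good κ N1 N).filter (fun p => p.1 = p.2), z p.1 * (starRingEnd ℂ) (z p.2)
        + (D + (starRingEnd ℂ) D) := by
    rw [← sum_filter_add_sum_filter_not (PP Good κ N1 N) (fun p => p.1 = p.2)]
    congr 1
    rw [← sum_filter_add_sum_filter_not ((PP Good κ N1 N).filter fun p => ¬ p.1 = p.2) (fun p => p.1 < p.2)]
    congr 1
    · rw [hD, filter_filter]
      apply sum_congr _ fun _ _ => rfl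
      apply filter_congr
      intro p _
      omega
    · rw [hD, map_sum, filter_filter]
      refine sum_bij' (fun p _ => (p.2, p.1)) (fun p _ => (p.2, p.1)) ?_ ?_ ?_ ?_ ?_
      · intro p hp
        rw [mem_filter, mem_PP] at hp ⊢
        exact ⟨⟨⟨hp.1.1.2, hp.1.1.1⟩, hp.1.2.symm⟩, by dsimp only; omega⟩
      · intro p hp
        rw [mem_filter, mem_PP] at hp ⊢
        refine ⟨⟨⟨hp.1.1.2, hp.1.1.1⟩, hp.1.2.symm⟩, ?_⟩
        dsimp only
        have := hp.2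
        omega
      · intro p _; rfl
      · intro p _; rfl
      · intro p _
        dsimp only
        rw [map_mul, Complex.conj_conj, mul_comm]
  have h5 : ‖∑ p ∈ (PP Good κ N1 N).filter (fun p => p.1 = p.2), z p.1 * (starRingEnd ℂ) (z p.2)‖ ≤ N := by
    refine (norm_sum_le _ _).trans ?_
    have h6 : ∀ p ∈ (PP Good κ N1 N).filter (fun p => p.1 = p.2), ‖z p.1 * (starRingEnd ℂ) (z p.2)‖ ≤ 1 := by
      intro p _
      rw [norm_mul, RCLike.norm_conj]
      have a := hz1 p.1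
      have b := hz1 p.2
      nlinarith [norm_nonneg (z p.1), norm_nonneg (z p.2)]
    refine (sum_le_sum h6).trans ?_
    rw [sum_const, nsmul_eq_mul, mul_one]
    have h7 : ((PP Good κ N1 N).filter (fun p => p.1 = p.2)) ⊆ (Icc 1 N).image fun m => (m, m) := by
      intro p hp
      rw [mem_filter, mem_PP, mem_GS] at hp
      rw [mem_image]
      refine ⟨p.1, ?_, ?_⟩
      · rw [mem_Icc]; have := hp.1.1.1.1; omega
      · ext
        · rfl
        · exact hp.2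
    have h8 := (card_le_card h7).trans card_image_le
    rw [Nat.card_Icc, Nat.add_sub_cancel] at h8
    exact_mod_cast h8
  have h6 : ‖D‖ ≤ Q * ∑ h ∈ Icc 1 ⌊H⌋₊, β h := by
    rw [hD, upper_pairs K, mul_sum]
    refine (norm_sum_le _ _).trans (sum_le_sum fun h hh => ?_)
    rw [mem_Icc] at hh
    have hh2 : (h : ℝ) ≤ H := (Nat.le_floor_iff (by linarith [K.H_one])).1 hh.2
    exact pair_sum K N1 h (hz h hh.1 hh2) (hβ h)
  have h7 : ∑ p ∈ I, ‖A p‖ ^ 2 ≤ N + 2 * (Q * ∑ h ∈ Icc 1 ⌊H⌋₊, β h) := by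
    have h8 : ‖((∑ p ∈ I, ‖A p‖ ^ 2 : ℝ) : ℂ)‖ = ∑ p ∈ I, ‖A p‖ ^ 2 := by
      rw [Complex.norm_real, Real.norm_eq_abs, abs_of_nonneg (sum_nonneg fun _ _ => by positivity)]
    rw [← h8, h3, h4]
    refine (norm_add_le _ _).trans ?_
    have h9 := norm_add_le D ((starRingEnd ℂ) D)
    rw [RCLike.norm_conj] at h9
    linarith
  have h10 : (I.card : ℝ) ≤ V := K.image G fun m hm => by rw [hG, mem_GS] at hm; exact ⟨hm.1.2, hm.2⟩
  calc _ ≤ (∑ p ∈ I, ‖A p‖) ^ 2 := pow_le_pow_left₀ (norm_nonneg _) h1 2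
    _ ≤ I.card * ∑ p ∈ I, ‖A p‖ ^ 2 := h2
    _ ≤ _ := mul_le_mul h10 h7 (sum_nonneg fun _ _ => by positivity) ((Nat.cast_nonneg _).trans h10)

end Pool.Agent.Y965.GP
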