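import Pool.Agent.Y965.GP.Ab

/-! The exponential sums and the sums with the sawtooth function for the functions of a key. -/

set_option autoImplicit false

namespace Pool.Agent.Y965.GP

open Finset Pool.Agent.H469R2.NK Pool.Agent.Y965.PS

variable {α : Type} [DecidableEq α] {N Q : ℕ} {H V B : ℝ} {Good : ℕ → Prop} {κ : ℕ → α}

/-- the exponential sum over the good integers, `n ≥ 1` -/
theorem En_sq (K : KD N Q H V B Good κ) {γ : ℝ} (hγ0 : 0 < γ) (hγ1 : γ < 1) (N1 : ℕ)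
    (hN1 : 1 ≤ N1) (hN1N : N1 ≤ N) (hq : Q ≤ N) (hH : H ≤ N) (n i : ℕ) (hn : 1 ≤ n) (hi : i ≤ 1)
    (hsm : n * (Q * H) * (N1 : ℝ) ^ (γ - 2) ≤ 2) {F : ℕ → ℝ} (hF1 : ∀ m, |F m| ≤ 1)
    (hF2 : ∀ m m', N1 < m → N1 < m' → Good m → Good m' → κ m = κ m' → F m = F m') :
    ‖∑ m ∈ GS Good N1 N, (F m : ℂ) * e (n * ((m : ℝ) + i) ^ γ)‖ ^ 2 ≤ V *
      (N + 4 / (γ * (1 - γ)) * (3 * N : ℝ) ^ (2 - γ) * (1 + Real.log N)) := by
  have a3 : 0 < γ * (1 - γ) := mul_pos hγ0 (by linarith)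
  have hNpos : (0 : ℝ) < N := by
    have : 0 < N := by omega
    exact_mod_cast this
  have hn0 : (0 : ℝ) < n := by exact_mod_cast hn
  have hN1pos : (0 : ℝ) < N1 := by exact_mod_cast hN1
  have hV : 0 ≤ V := (Nat.cast_nonneg _).trans (K.image ∅ (by simp))
  set q : ℝ := (Q : ℝ) with hqdef
  have hq0 : 0 < q := by rw [hqdef]; exact_mod_cast K.Q_pos
  have hqN : q ≤ N := by rw [hqdef]; exact_mod_cast hq
  set Y2 : ℝ := 3 * N with hY2
  have hY2pos : 0 < Y2 := by positivity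
  have hY2p : 0 < Y2 ^ (γ - 2) := Real.rpow_pos_of_pos hY2pos _
  set β : ℕ → ℝ := fun h => 2 / (n * (q * h * (γ * (1 - γ)) * Y2 ^ (γ - 2))) with hβ
  have hβ0 : ∀ h, 0 ≤ β h := fun h => by rw [hβ]; positivity
  have key := disp K N1 hF1 hF2 (z := fun m : ℕ => e (n * ((m : ℝ) + i) ^ γ))
    (fun m => (norm_e _).le) hβ0 (by
      intro h hh1 hh2 m0 J hm0 hJ
      have hh0 : (0 : ℝ) < h := by exact_mod_cast hh1
      have e1 : ∀ j : ℕ, e (n * (((m0 + Q * j : ℕ) : ℝ) + i) ^ γ) *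
          (starRingEnd ℂ) (e (n * (((m0 + Q * j + h : ℕ) : ℝ) + i) ^ γ))
          = e (n * (((m0 : ℝ) + i + q * j) ^ γ - ((m0 : ℝ) + i + q * j + h) ^ γ)) := by
        intro j
        rw [conj_e, ← e_add]
        congr 1
        have f1 : (((m0 + Q * j : ℕ) : ℝ) + i) = (m0 : ℝ) + i + q * j := by
          rw [hqdef]; push_cast; ring
        have f2 : (((m0 + Q * j + h : ℕ) : ℝ) + i) = (m0 : ℝ) + i + q * j + h := by
          rw [hqdef]; push_cast; ring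
        rw [f1, f2]; ring
      rw [sum_congr rfl fun j _ => e1 j]
      refine kl_phase hγ0 hγ1 hn0 hq0 hh0 hN1pos J (Y2 := Y2) ?_ ?_ ?_ ?_
      · have : (N1 : ℝ) ≤ m0 := by exact_mod_cast hm0.le
        have : (0 : ℝ) ≤ i := Nat.cast_nonneg i
        linarith
      · intro j hj
        have h1 : ((m0 + Q * j + h : ℕ) : ℝ) ≤ N := by exact_mod_cast hJ j hj
        push_cast at h1
        rw [← hqdef] at h1
        have h2 : (i : ℝ) ≤ 1 := by exact_mod_cast hi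
        have h3 : (1 : ℝ) ≤ N := by exact_mod_cast (by omega : 1 ≤ N)
        rw [hY2]
        linarith
      · have : (N1 : ℝ) ≤ N := by exact_mod_cast hN1N
        rw [hY2]; linarith
      · have h2 : γ * (1 - γ) ≤ 1 / 4 := by nlinarith [sq_nonneg (γ - 1 / 2)]
        have h3 : 0 < (N1 : ℝ) ^ (γ - 2) := Real.rpow_pos_of_pos hN1pos _
        have hH0 : 0 < H := by linarith [K.H_one]
        calc n * (q * h * (γ * (1 - γ)) * (N1 : ℝ) ^ (γ - 2))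
            ≤ n * (q * H * (1 / 4) * (N1 : ℝ) ^ (γ - 2)) := by gcongr
          _ = (n * (q * H) * (N1 : ℝ) ^ (γ - 2)) / 4 := by ring
          _ ≤ 2 / 4 := by gcongr
          _ = 1 / 2 := by norm_num)
  refine key.trans ?_
  apply mul_le_mul_of_nonneg_left _ hV
  have h1 : ∑ h ∈ Icc 1 ⌊H⌋₊, β h
      = 2 / (n * (q * (γ * (1 - γ)) * Y2 ^ (γ - 2))) * ∑ h ∈ Icc 1 ⌊H⌋₊, (1 / (h : ℝ)) := by
    rw [mul_sum]
    apply sum_congr rfl
    intro h hh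
    rw [mem_Icc] at hh
    have hh0 : (h : ℝ) ≠ 0 := by
      have : (0 : ℝ) < h := by exact_mod_cast hh.1
      linarith
    rw [hβ]; dsimp only
    field_simp
  have hfl : 1 ≤ ⌊H⌋₊ := Nat.le_floor (by exact_mod_cast K.H_one)
  have h2 : ∑ h ∈ Icc 1 ⌊H⌋₊, (1 / (h : ℝ)) ≤ 1 + Real.log N := by
    refine (harm _).trans ?_
    have h3 : (⌊H⌋₊ : ℝ) ≤ N := (Nat.floor_le (by linarith [K.H_one])).trans hH
    have h4 : (0 : ℝ) < ⌊H⌋₊ := by exact_mod_cast hfl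
    linarith [Real.log_le_log h4 h3]
  have hlog : 0 ≤ 1 + Real.log N := by
    have : 0 ≤ Real.log N := Real.log_natCast_nonneg N
    linarith
  have h3 : 2 * (q * ∑ h ∈ Icc 1 ⌊H⌋₊, β h) ≤ 4 / (γ * (1 - γ)) * (3 * N : ℝ) ^ (2 - γ) * (1 + Real.log N) := by
    rw [h1]
    have e2 : (3 * N : ℝ) ^ (2 - γ) = (Y2 ^ (γ - 2))⁻¹ := by
      rw [← hY2, ← Real.rpow_neg hY2pos.le]; congr 1; ring
    rw [e2]
    have h4 : 2 * (q * (2 / (n * (q * (γ * (1 - γ)) * Y2 ^ (γ - 2))) * ∑ h ∈ Icc 1 ⌊H⌋₊, (1 / (h : ℝ))))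
        = (1 / n) * (4 / (γ * (1 - γ)) * (Y2 ^ (γ - 2))⁻¹ * ∑ h ∈ Icc 1 ⌊H⌋₊, (1 / (h : ℝ))) := by
      field_simp
      ring
    rw [h4]
    have h5 : (1 : ℝ) / n ≤ 1 := by rw [div_le_one hn0]; exact_mod_cast hn
    have h6 : 0 ≤ ∑ h ∈ Icc 1 ⌊H⌋₊, (1 / (h : ℝ)) := sum_nonneg fun _ _ => by positivity
    calc _ ≤ 1 * (4 / (γ * (1 - γ)) * (Y2 ^ (γ - 2))⁻¹ * ∑ h ∈ Icc 1 ⌊H⌋₊, (1 / (h : ℝ))) :=
          mul_le_mul_of_nonneg_right h5 (by positivity)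
      _ ≤ _ := by rw [one_mul]; exact mul_le_mul_of_nonneg_left h2 (by positivity)
  linarith

theorem GS_card (N1 N : ℕ) : ((GS Good N1 N).card : ℝ) ≤ N := by
  classical
  have h : GS Good N1 N ⊆ Icc 1 N := by
    intro m hm
    rw [mem_GS] at hm
    rw [mem_Icc]; omega
  have h1 := card_le_card h
  rw [Nat.card_Icc, Nat.add_sub_cancel] at h1
  exact_mod_cast h1

theorem ww_small' {γ : ℝ} (hγ0 : 0 < γ) {F : ℕ → ℝ} (hF : ∀ x, |F x| ≤ 1) (M : ℕ) :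
    |∑ m ∈ Icc 1 M, F m * ww γ m| ≤ 2 * ((M : ℝ) + 1) ^ γ := by
  have h := ww_small hγ0 (F := fun z : ℤ => F z.toNat) (fun x => hF _) M
  simpa using h

/-- a power of the logarithm is at most a small power -/
theorem log_le {s : ℝ} (hs : 0 < s) {N : ℕ} (hN : 1 ≤ N) : Real.log N ≤ 1 / s * (N : ℝ) ^ s := by
  have h := Real.log_le_rpow_div (x := (N : ℝ)) (Nat.cast_nonneg _) hs
  rw [one_div, inv_mul_eq_div]
  exact h

/-- the sum of the sawtooth function over the good integers -/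
theorem psi_good {x a : ℝ} (hx0 : 0 < x) (hxa : x ≤ a) (ha : a ≤ 1 / 20) :
    ∃ C : ℝ, 1 ≤ C ∧ ∀ (α : Type) [DecidableEq α] (N Q : ℕ) (H V B : ℝ) (Good : ℕ → Prop) (κ : ℕ → α),
      KD N Q H V B Good κ → 1024 ≤ N → Q * H ≤ (N : ℝ) ^ (1 / 2 : ℝ) → V ≤ (N : ℝ) ^ (1 - 8 * a) →
      ∀ F : ℕ → ℝ, (∀ m, |F m| ≤ 1) → (∀ m, 0 ≤ F m) →
      (∀ m m' : ℕ, (N : ℝ) ^ (1 / 2 : ℝ) < m → (N : ℝ) ^ (1 / 2 : ℝ) < m' → Good m → Good m' → κ m = κ m' → F m = F m') →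
      ∀ i : ℕ, i ≤ 1 →
      |∑ m ∈ GS Good ⌊(N : ℝ) ^ (1 - 2 * a)⌋₊ N, F m * psi (-(((m : ℝ) + i) ^ (1 - x)))| ≤ C * (N : ℝ) ^ (1 - x - a) := by
  have ha0 : 0 < a := by linarith
  have hγ0 : (0 : ℝ) < 1 - x := by linarith
  have hγ1 : 1 - x < 1 := by linarith
  have a3 : 0 < (1 - x) * (1 - (1 - x)) := mul_pos hγ0 (by linarith)
  set C1 : ℝ := 1 + 36 / ((1 - x) * (1 - (1 - x))) * (1 + 1 / a) with hC1
  have hC1p : 1 ≤ C1 := by
    rw [hC1]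
    have : 0 < 36 / ((1 - x) * (1 - (1 - x))) * (1 + 1 / a) := by positivity
    linarith
  set C2 : ℝ := 2 + 2 / a with hC2
  have hC2p : 0 < C2 := by positivity
  refine ⟨3 + C2 * C1, by nlinarith, ?_⟩
  intro α _ N Q H V B Good κ K hN hQH hV F hF1 hF0 hF2 i hi
  have hNpos : (0 : ℝ) < N := by
    have : 0 < N := by omega
    exact_mod_cast this
  have hN1' : 1 ≤ N := by omega
  have hN1R : (1 : ℝ) ≤ N := by exact_mod_cast hN1'
  have hQ1 : (1 : ℝ) ≤ Q := by exact_mod_cast K.Q_pos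
  have hV0 : 0 ≤ V := (Nat.cast_nonneg _).trans (K.image ∅ (by simp))
  have hhalf : (N : ℝ) ^ (1 / 2 : ℝ) ≤ N := by
    calc (N : ℝ) ^ (1 / 2 : ℝ) ≤ (N : ℝ) ^ (1 : ℝ) := Real.rpow_le_rpow_of_exponent_le hN1R (by norm_num)
      _ = N := Real.rpow_one _
  have hqN : Q ≤ N := by
    have h1 : (Q : ℝ) ≤ Q * H := le_mul_of_one_le_right (by linarith) K.H_one
    exact_mod_cast (h1.trans hQH).trans hhalf
  have hHN : H ≤ N := by
    have h1 : H ≤ Q * H := le_mul_of_one_le_left (by linarith [K.H_one]) hQ1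
    exact (h1.trans hQH).trans hhalf
  set N1 := ⌊(N : ℝ) ^ (1 - 2 * a)⌋₊ with hN1
  have hP1 : 1 ≤ (N : ℝ) ^ (1 - 2 * a) := Real.one_le_rpow hN1R (by linarith)
  have hN1a : (N1 : ℝ) ≤ (N : ℝ) ^ (1 - 2 * a) := Nat.floor_le (by positivity)
  have hN1b : (N : ℝ) ^ (1 - 2 * a) < N1 + 1 := Nat.lt_floor_add_one _
  have hN11 : 1 ≤ N1 := Nat.le_floor (by exact_mod_cast hP1)
  have hN11R : (1 : ℝ) ≤ N1 := by exact_mod_cast hN11
  have hN1N : N1 ≤ N := by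
    have h1 : (N1 : ℝ) ≤ N := by
      refine hN1a.trans ?_
      calc (N : ℝ) ^ (1 - 2 * a) ≤ (N : ℝ) ^ (1 : ℝ) := Real.rpow_le_rpow_of_exponent_le hN1R (by linarith)
        _ = N := Real.rpow_one _
    exact_mod_cast h1
  have hN1g : (N1 : ℝ) ^ ((1 - x) - 2) ≤ 4 * (N : ℝ) ^ (-(1 - 2 * a)) := by
    have h1 : (N : ℝ) ^ (1 - 2 * a) / 2 ≤ N1 := by linarith
    have h2 : (N1 : ℝ) ^ ((1 - x) - 2) ≤ ((N : ℝ) ^ (1 - 2 * a) / 2) ^ ((1 - x) - 2) :=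
      Real.rpow_le_rpow_of_nonpos (by positivity) h1 (by linarith)
    refine h2.trans ?_
    rw [Real.div_rpow (by positivity) (by norm_num), ← Real.rpow_mul hNpos.le, div_eq_mul_inv,
      ← Real.rpow_neg (by norm_num), mul_comm]
    have h3 : (2 : ℝ) ^ (-((1 - x) - 2)) ≤ 4 := by
      calc (2 : ℝ) ^ (-((1 - x) - 2)) ≤ (2 : ℝ) ^ (2 : ℝ) := Real.rpow_le_rpow_of_exponent_le (by norm_num) (by linarith)
        _ = 4 := by norm_num
    have h4 : (N : ℝ) ^ ((1 - 2 * a) * ((1 - x) - 2)) ≤ (N : ℝ) ^ (-(1 - 2 * a)) := by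
      apply Real.rpow_le_rpow_of_exponent_le hN1R
      nlinarith
    exact mul_le_mul h3 h4 (by positivity) (by norm_num)
  set Kc := ⌈(N : ℝ) ^ (2 * x + 2 * a)⌉₊ with hK
  have hKe : 1 ≤ (N : ℝ) ^ (2 * x + 2 * a) := Real.one_le_rpow hN1R (by positivity)
  have hK1 : (N : ℝ) ^ (2 * x + 2 * a) ≤ Kc := Nat.le_ceil _
  have hK2 : (Kc : ℝ) ≤ 2 * (N : ℝ) ^ (2 * x + 2 * a) := by
    have := Nat.ceil_lt_add_one (by positivity : 0 ≤ (N : ℝ) ^ (2 * x + 2 * a))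
    linarith
  have hK3 : (1 : ℝ) ≤ Kc := hKe.trans hK1
  have hK4 : 1 ≤ Kc := by exact_mod_cast hK3
  set L := Real.log N with hL
  have hL0 : 0 ≤ L := Real.log_natCast_nonneg N
  have hLa : L ≤ 1 / a * (N : ℝ) ^ a := log_le ha0 hN1'
  have hNa : 1 ≤ (N : ℝ) ^ a := Real.one_le_rpow hN1R ha0.le
  -- the exponential sums
  set Bd : ℝ := C1 * (N : ℝ) ^ (1 - 7 / 2 * a + x / 2) with hBd
  have hBd0 : 0 ≤ Bd := by positivity
  have hEn : ∀ n : ℕ, 1 ≤ n → n ≤ Kc → ‖∑ m ∈ GS Good N1 N, (F m : ℂ) * e (n * ((m : ℝ) + i) ^ (1 - x))‖ ≤ Bd := by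
    intro n hn hnK
    have hnR : (n : ℝ) ≤ 2 * (N : ℝ) ^ (2 * x + 2 * a) := le_trans (by exact_mod_cast hnK) hK2
    have hsm : n * (Q * H) * (N1 : ℝ) ^ ((1 - x) - 2) ≤ 2 := by
      have hH0 : 0 ≤ H := by linarith [K.H_one]
      calc n * (Q * H) * (N1 : ℝ) ^ ((1 - x) - 2)
          ≤ (2 * (N : ℝ) ^ (2 * x + 2 * a)) * (N : ℝ) ^ (1 / 2 : ℝ) * (4 * (N : ℝ) ^ (-(1 - 2 * a))) := by gcongr
        _ = 8 * ((N : ℝ) ^ (2 * x + 2 * a) * (N : ℝ) ^ (1 / 2 : ℝ) * (N : ℝ) ^ (-(1 - 2 * a))) := by ring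
        _ = 8 * (N : ℝ) ^ (2 * x + 2 * a + 1 / 2 + -(1 - 2 * a)) := by
            rw [← Real.rpow_add hNpos, ← Real.rpow_add hNpos]
        _ ≤ 8 * (N : ℝ) ^ (-(1 / 5) : ℝ) := by
            apply mul_le_mul_of_nonneg_left _ (by norm_num)
            apply Real.rpow_le_rpow_of_exponent_le hN1R
            linarith
        _ ≤ 8 * (1 / 4) := by
            apply mul_le_mul_of_nonneg_left _ (by norm_num)
            have h5 : (1024 : ℝ) ≤ N := by exact_mod_cast hN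
            have h6 : (N : ℝ) ^ (-(1 / 5) : ℝ) ≤ (1024 : ℝ) ^ (-(1 / 5) : ℝ) :=
              Real.rpow_le_rpow_of_nonpos (by norm_num) h5 (by norm_num)
            refine h6.trans (le_of_eq ?_)
            have h7 : (1024 : ℝ) = 4 ^ (5 : ℝ) := by norm_num
            rw [h7, ← Real.rpow_mul (by norm_num)]
            norm_num
        _ = 2 := by norm_num
    have hlarge : ∀ m : ℕ, N1 < m → (N : ℝ) ^ (1 / 2 : ℝ) < m := by
      intro m hm
      have h1 : (N1 : ℝ) + 1 ≤ m := by exact_mod_cast hm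
      have h2 : (N : ℝ) ^ (1 / 2 : ℝ) ≤ (N : ℝ) ^ (1 - 2 * a) :=
        Real.rpow_le_rpow_of_exponent_le hN1R (by linarith)
      linarith
    have key := En_sq K hγ0 hγ1 N1 hN11 hN1N hqN hHN n i hn hi hsm hF1
      (fun m m' hm hm' => hF2 m m' (hlarge m hm) (hlarge m' hm'))
    have f2 : (N + 4 / ((1 - x) * (1 - (1 - x))) * (3 * N : ℝ) ^ (2 - (1 - x)) * (1 + L)) ≤ C1 * (N : ℝ) ^ (1 + x + a) := by
      have g1 : (3 * N : ℝ) ^ (2 - (1 - x)) ≤ 9 * (N : ℝ) ^ (1 + x) := by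
        rw [Real.mul_rpow (by norm_num) hNpos.le]
        have g2 : (3 : ℝ) ^ (2 - (1 - x)) ≤ 9 := by
          calc (3 : ℝ) ^ (2 - (1 - x)) ≤ (3 : ℝ) ^ (2 : ℝ) := Real.rpow_le_rpow_of_exponent_le (by norm_num) (by linarith)
            _ = 9 := by norm_num
        have g3 : (N : ℝ) ^ (2 - (1 - x)) = (N : ℝ) ^ (1 + x) := by congr 1; ring
        rw [g3]
        exact mul_le_mul_of_nonneg_right g2 (by positivity)
      have g4 : (N : ℝ) ≤ (N : ℝ) ^ (1 + x + a) := by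
        calc (N : ℝ) = (N : ℝ) ^ (1 : ℝ) := (Real.rpow_one _).symm
          _ ≤ _ := Real.rpow_le_rpow_of_exponent_le hN1R (by linarith)
      have g6 : 1 + L ≤ (1 + 1 / a) * (N : ℝ) ^ a := by
        have : (1 + 1 / a) * (N : ℝ) ^ a = (N : ℝ) ^ a + 1 / a * (N : ℝ) ^ a := by ring
        linarith
      have g5 : 4 / ((1 - x) * (1 - (1 - x))) * (3 * N : ℝ) ^ (2 - (1 - x)) * (1 + L)
          ≤ 4 / ((1 - x) * (1 - (1 - x))) * (9 * (N : ℝ) ^ (1 + x)) * ((1 + 1 / a) * (N : ℝ) ^ a) := by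
        gcongr
      rw [hC1]
      calc _ ≤ (N : ℝ) ^ (1 + x + a) + 4 / ((1 - x) * (1 - (1 - x))) * (9 * (N : ℝ) ^ (1 + x)) * ((1 + 1 / a) * (N : ℝ) ^ a) :=
            add_le_add g4 g5
        _ = (N : ℝ) ^ (1 + x + a) + 36 / ((1 - x) * (1 - (1 - x))) * (1 + 1 / a) * ((N : ℝ) ^ (1 + x) * (N : ℝ) ^ a) := by ring
        _ = _ := by rw [← Real.rpow_add hNpos]; ring
    have h3 := key.trans (mul_le_mul hV f2 (by positivity) (by positivity))
    have h4 : (N : ℝ) ^ (1 - 8 * a) * (C1 * (N : ℝ) ^ (1 + x + a)) ≤ Bd ^ 2 := by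
      have e1 : (N : ℝ) ^ (1 - 8 * a) * (N : ℝ) ^ (1 + x + a) = ((N : ℝ) ^ (1 - 7 / 2 * a + x / 2)) ^ 2 := by
        rw [← Real.rpow_add hNpos, ← Real.rpow_natCast, ← Real.rpow_mul hNpos.le]
        congr 1; push_cast; ring
      have e2 : (N : ℝ) ^ (1 - 8 * a) * (C1 * (N : ℝ) ^ (1 + x + a)) = C1 * ((N : ℝ) ^ (1 - 7 / 2 * a + x / 2)) ^ 2 := by
        rw [← e1]; ring
      rw [e2, hBd, mul_pow]
      apply mul_le_mul_of_nonneg_right _ (by positivity)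
      nlinarith
    exact (pow_le_pow_iff_left₀ (norm_nonneg _) hBd0 two_ne_zero).1 (h3.trans h4)
  set G := GS Good N1 N with hG
  have hGc : (G.card : ℝ) ≤ N := GS_card _ _
  set η := (N : ℝ) ^ (-(x + a)) with hη
  have hη0 : 0 < η := by positivity
  have hη1 : η < 1 := by
    rw [hη]
    apply Real.rpow_lt_one_of_one_lt_of_neg
    · have : (1024 : ℝ) ≤ N := by exact_mod_cast hN
      linarith
    · linarith
  have key := psi_sum G (F := F) hF0 (fun m => (abs_le.1 (hF1 m)).2)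
    (fun m : ℕ => -(((m : ℝ) + i) ^ (1 - x))) hK4 hη0 hη1
  refine key.trans ?_
  have hconj : ∀ n : ℕ, ‖∑ m ∈ G, (F m : ℂ) * e (n * (-(((m : ℝ) + i) ^ (1 - x))))‖
      = ‖∑ m ∈ G, (F m : ℂ) * e (n * ((m : ℝ) + i) ^ (1 - x))‖ := by
    intro n
    have h1 : ∑ m ∈ G, (F m : ℂ) * e (n * (-(((m : ℝ) + i) ^ (1 - x))))
        = (starRingEnd ℂ) (∑ m ∈ G, (F m : ℂ) * e (n * ((m : ℝ) + i) ^ (1 - x))) := by
      rw [map_sum]
      apply sum_congr rfl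
      intro m _
      rw [map_mul, Complex.conj_ofReal, conj_e]
      congr 2; ring
    rw [h1, RCLike.norm_conj]
  set E := (N : ℝ) ^ (1 - x - a) with hEdef
  have hE0 : 0 < E := by positivity
  have t1 : η * G.card ≤ E := by
    calc η * G.card ≤ η * N := mul_le_mul_of_nonneg_left hGc hη0.le
      _ = (N : ℝ) ^ (-(x + a)) * (N : ℝ) ^ (1 : ℝ) := by rw [Real.rpow_one]
      _ = E := by rw [← Real.rpow_add hNpos, hEdef]; congr 1; ring
  have t2 : 2 * (G.card : ℝ) / (η * Kc) ≤ 2 * E := by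
    have h1 : (N : ℝ) ^ (x + a) ≤ η * Kc := by
      calc (N : ℝ) ^ (x + a) = η * (N : ℝ) ^ (2 * x + 2 * a) := by
            rw [hη, ← Real.rpow_add hNpos]; congr 1; ring
        _ ≤ η * Kc := mul_le_mul_of_nonneg_left hK1 hη0.le
    have h2 : 0 < (N : ℝ) ^ (x + a) := by positivity
    calc 2 * (G.card : ℝ) / (η * Kc) ≤ 2 * N / (N : ℝ) ^ (x + a) := by
          apply div_le_div₀ (by positivity) (by linarith) h2 h1
      _ = 2 * ((N : ℝ) ^ (1 : ℝ) / (N : ℝ) ^ (x + a)) := by rw [Real.rpow_one]; ring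
      _ = 2 * E := by rw [← Real.rpow_sub hNpos, hEdef]; congr 2; ring
  have t3 : ∑ n ∈ Icc 1 Kc, 1 / (n : ℝ) * ‖∑ m ∈ G, (F m : ℂ) * e (n * (-(((m : ℝ) + i) ^ (1 - x))))‖ ≤ C2 * C1 * E := by
    have h1 : ∑ n ∈ Icc 1 Kc, 1 / (n : ℝ) * ‖∑ m ∈ G, (F m : ℂ) * e (n * (-(((m : ℝ) + i) ^ (1 - x))))‖
        ≤ (∑ n ∈ Icc 1 Kc, 1 / (n : ℝ)) * Bd := by
      rw [sum_mul]
      apply sum_le_sum
      intro n hn
      rw [mem_Icc] at hn
      rw [hconj]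
      exact mul_le_mul_of_nonneg_left (hEn n hn.1 hn.2) (by positivity)
    refine h1.trans ?_
    have h2 : ∑ n ∈ Icc 1 Kc, 1 / (n : ℝ) ≤ C2 * (N : ℝ) ^ a := by
      refine (harm _).trans ?_
      have h3 : (Kc : ℝ) ≤ 2 * (N : ℝ) ^ (1 : ℝ) := by
        refine hK2.trans ?_
        apply mul_le_mul_of_nonneg_left _ (by norm_num)
        exact Real.rpow_le_rpow_of_exponent_le hN1R (by linarith)
      rw [Real.rpow_one] at h3
      have h4 : Real.log Kc ≤ Real.log 2 + L := by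
        rw [hL, ← Real.log_mul (by norm_num) hNpos.ne']
        exact Real.log_le_log (by linarith) h3
      have h5 : Real.log 2 ≤ 1 := by
        have := Real.log_two_lt_d9; linarith
      have h6 : 1 / a * (N : ℝ) ^ a ≤ 2 / a * (N : ℝ) ^ a := by
        apply mul_le_mul_of_nonneg_right _ (by positivity)
        exact div_le_div_of_nonneg_right (by norm_num) ha0.le
      have h7 : C2 * (N : ℝ) ^ a = 2 * (N : ℝ) ^ a + 2 / a * (N : ℝ) ^ a := by rw [hC2]; ring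
      linarith
    calc (∑ n ∈ Icc 1 Kc, 1 / (n : ℝ)) * Bd ≤ (C2 * (N : ℝ) ^ a) * Bd := mul_le_mul_of_nonneg_right h2 hBd0
      _ = C2 * C1 * ((N : ℝ) ^ a * (N : ℝ) ^ (1 - 7 / 2 * a + x / 2)) := by rw [hBd]; ring
      _ = C2 * C1 * (N : ℝ) ^ (a + (1 - 7 / 2 * a + x / 2)) := by rw [← Real.rpow_add hNpos]
      _ ≤ C2 * C1 * E := by
          apply mul_le_mul_of_nonneg_left _ (by positivity)
          rw [hEdef]
          apply Real.rpow_le_rpow_of_exponent_le hN1R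
          linarith
  calc _ ≤ E + 2 * E + C2 * C1 * E := add_le_add (add_le_add t1 t2) t3
    _ = _ := by ring

open Classical in
/-- THE TRANSFER INEQUALITY AT ONE LEVEL -/
theorem one_N {x a : ℝ} (hx0 : 0 < x) (hxa : x ≤ a) (ha : a ≤ 1 / 20) :
    ∃ C : ℝ, 1 ≤ C ∧ ∀ (α : Type) [DecidableEq α] (N Q : ℕ) (H V B : ℝ) (Good : ℕ → Prop) (κ : ℕ → α),
      KD N Q H V B Good κ → 1024 ≤ N → Q * H ≤ (N : ℝ) ^ (1 / 2 : ℝ) → V ≤ (N : ℝ) ^ (1 - 8 * a) →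
      B ≤ (N : ℝ) ^ (1 - 2 * a) →
      ∀ F : ℕ → ℝ, (∀ m, |F m| ≤ 1) →
      (∀ m m' : ℕ, (N : ℝ) ^ (1 / 2 : ℝ) < m → (N : ℝ) ^ (1 / 2 : ℝ) < m' → Good m → Good m' → κ m = κ m' → F m = F m') →
      |∑ m ∈ Icc 1 N, F m * ww (1 - x) m| ≤ C * (N : ℝ) ^ (1 - x - a) := by
  obtain ⟨C, hC, hP⟩ := psi_good hx0 hxa ha
  have ha0 : 0 < a := by linarith
  refine ⟨6 * C + 10, by linarith, ?_⟩
  intro α _ N Q H V B Good κ K hN hQH hV hB F hF1 hF2
  have hNpos : (0 : ℝ) < N := by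
    have : 0 < N := by omega
    exact_mod_cast this
  have hN1' : 1 ≤ N := by omega
  have hN1R : (1 : ℝ) ≤ N := by exact_mod_cast hN1'
  set E := (N : ℝ) ^ (1 - x - a) with hEdef
  have hE0 : 0 < E := by positivity
  set N1 := ⌊(N : ℝ) ^ (1 - 2 * a)⌋₊ with hN1
  have hP1 : 1 ≤ (N : ℝ) ^ (1 - 2 * a) := Real.one_le_rpow hN1R (by linarith)
  have hN1a : (N1 : ℝ) ≤ (N : ℝ) ^ (1 - 2 * a) := Nat.floor_le (by positivity)
  have hN1N : N1 ≤ N := by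
    have h1 : (N1 : ℝ) ≤ N := by
      refine hN1a.trans ?_
      calc (N : ℝ) ^ (1 - 2 * a) ≤ (N : ℝ) ^ (1 : ℝ) := Real.rpow_le_rpow_of_exponent_le hN1R (by linarith)
        _ = N := Real.rpow_one _
    exact_mod_cast h1
  set G := GS Good N1 N with hGdef
  have hdec : ∑ m ∈ Icc 1 N, F m * ww (1 - x) m = ∑ m ∈ Icc 1 N1, F m * ww (1 - x) m
      + (∑ m ∈ G, F m * ww (1 - x) m + ∑ m ∈ (Ioc N1 N).filter (fun m : ℕ => ¬ Good m), F m * ww (1 - x) m) := by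
    have h1 : Icc 1 N = Icc 1 N1 ∪ Ioc N1 N := by
      ext m; simp only [mem_union, mem_Icc, mem_Ioc]; omega
    rw [h1, sum_union]
    · congr 1
      rw [hGdef]; unfold GS
      rw [sum_filter_add_sum_filter_not]
    · rw [Finset.disjoint_left]
      intro m hm hm'
      rw [mem_Icc] at hm
      rw [mem_Ioc] at hm'
      omega
  have p1 : |∑ m ∈ Icc 1 N1, F m * ww (1 - x) m| ≤ 4 * E := by
    refine (ww_small' (by linarith : (0 : ℝ) < 1 - x) hF1 N1).trans ?_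
    have h1 : ((N1 : ℝ) + 1) ^ (1 - x) ≤ (2 * (N : ℝ) ^ (1 - 2 * a)) ^ (1 - x) :=
      Real.rpow_le_rpow (by positivity) (by linarith) (by linarith)
    have h2 : (2 * (N : ℝ) ^ (1 - 2 * a)) ^ (1 - x) ≤ 2 * E := by
      rw [Real.mul_rpow (by norm_num) (by positivity), ← Real.rpow_mul hNpos.le]
      have h3 : (2 : ℝ) ^ (1 - x) ≤ 2 := by
        calc (2 : ℝ) ^ (1 - x) ≤ (2 : ℝ) ^ (1 : ℝ) := Real.rpow_le_rpow_of_exponent_le (by norm_num) (by linarith)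
          _ = 2 := by norm_num
      have h4 : (N : ℝ) ^ ((1 - 2 * a) * (1 - x)) ≤ E := by
        rw [hEdef]; apply Real.rpow_le_rpow_of_exponent_le hN1R; nlinarith
      exact mul_le_mul h3 h4 (by positivity) (by norm_num)
    linarith
  have p2 : |∑ m ∈ (Ioc N1 N).filter (fun m : ℕ => ¬ Good m), F m * ww (1 - x) m| ≤ E := by
    refine (abs_sum_le_sum_abs _ _).trans ?_
    have h2 : ∀ m ∈ (Ioc N1 N).filter (fun m : ℕ => ¬ Good m), |F m * ww (1 - x) m| ≤ 1 := by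
      intro m _
      rw [abs_mul]
      nlinarith [hF1 m, ww_le_one (1 - x) m, abs_nonneg (F m), abs_nonneg (ww (1 - x) m)]
    refine (sum_le_sum h2).trans ?_
    rw [sum_const, nsmul_eq_mul, mul_one]
    refine (K.bad _ ?_).trans (hB.trans ?_)
    · intro m hm
      rw [mem_filter, mem_Ioc] at hm
      exact ⟨by omega, hm.2⟩
    · rw [hEdef]; apply Real.rpow_le_rpow_of_exponent_le hN1R; linarith
  have p3 : |∑ m ∈ G, F m * ww (1 - x) m| ≤ 6 * C * E := by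
    have h1 : ∀ F : ℕ → ℝ, (∀ m, |F m| ≤ 1) → (∀ m, 0 ≤ F m) →
        (∀ m m' : ℕ, (N : ℝ) ^ (1 / 2 : ℝ) < m → (N : ℝ) ^ (1 / 2 : ℝ) < m' → Good m → Good m' → κ m = κ m' → F m = F m') →
        |∑ m ∈ G, F m * ww (1 - x) m| ≤ 2 * C * E := by
      intro F hF1 hF0 hF2
      have a0 := hP α N Q H V B Good κ K hN hQH hV F hF1 hF0 hF2 0 (by norm_num)
      have a1 := hP α N Q H V B Good κ K hN hQH hV F hF1 hF0 hF2 1 le_rfl
      rw [← hEdef] at a0 a1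
      have e1 : ∑ m ∈ G, F m * ww (1 - x) m = ∑ m ∈ G, F m * psi (-(((m : ℝ) + (1 : ℕ)) ^ (1 - x)))
          - ∑ m ∈ G, F m * psi (-(((m : ℝ) + (0 : ℕ)) ^ (1 - x))) := by
        rw [← sum_sub_distrib]
        apply sum_congr rfl
        intro m _
        rw [ww_psi]
        push_cast
        rw [add_zero]; ring
      rw [e1]
      refine (abs_sub _ _).trans ?_
      linarith
    have h2 := h1 (fun m => (1 + F m) / 2) (fun m => by
        have := abs_le.1 (hF1 m)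
        rw [abs_le]; constructor <;> linarith) (fun m => by
        have := (abs_le.1 (hF1 m)).1
        linarith) (fun m m' b b' g g' hk => by simp only [hF2 m m' b b' g g' hk])
    have h3 := h1 (fun _ => 1) (fun m => by simp) (fun m => by norm_num) (fun _ _ _ _ _ _ _ => rfl)
    have e2 : ∑ m ∈ G, F m * ww (1 - x) m = 2 * ∑ m ∈ G, (1 + F m) / 2 * ww (1 - x) m - ∑ m ∈ G, 1 * ww (1 - x) m := by
      rw [mul_sum, ← sum_sub_distrib]
      apply sum_congr rfl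
      intro m _; ring
    rw [e2]
    refine (abs_sub _ _).trans ?_
    rw [abs_mul, abs_two]
    linarith
  rw [hdec]
  have h4 := abs_add_le (∑ m ∈ Icc 1 N1, F m * ww (1 - x) m)
    (∑ m ∈ G, F m * ww (1 - x) m + ∑ m ∈ (Ioc N1 N).filter (fun m : ℕ => ¬ Good m), F m * ww (1 - x) m)
  have h5 := abs_add_le (∑ m ∈ G, F m * ww (1 - x) m)
    (∑ m ∈ (Ioc N1 N).filter (fun m : ℕ => ¬ Good m), F m * ww (1 - x) m)
  nlinarith

end Pool.Agent.Y965.GP
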