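import Pool.Agent.Y965.GP.Main

/-! The sequences `⌊n ^ c⌋`: transfer, and the trajectories that avoid `[-y, y]`. -/

set_option autoImplicit false

namespace Pool.Agent.Y965.GP

open Finset Filter Topology Pool.Agent.H319R3.GC Pool.Agent.Y965.PS

variable {d : ℕ} {m r : ℕ → ℤ}

theorem gam {a c : ℝ} (ha : a < 1) (hc : 1 < c) (hca : c < 1 / (1 - a)) : 0 < 1 - 1 / c ∧ 1 - 1 / c ≤ a := by
  have hc0 : 0 < c := by linarith
  constructor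
  · have : 1 / c < 1 := by rw [div_lt_one hc0]; exact hc
    linarith
  · have h1 : (1 - a) < 1 / c := by
      rw [lt_div_iff₀ (by linarith)] at hca
      rw [lt_div_iff₀ hc0]
      linarith
    linarith

theorem floor_pow_ge {c : ℝ} (hc : 1 < c) {N : ℕ} (hN : 1 ≤ N) : N ≤ ⌊(N : ℝ) ^ c⌋₊ := by
  apply Nat.le_floor
  have hN1 : (1 : ℝ) ≤ N := by exact_mod_cast hN
  calc (N : ℝ) = (N : ℝ) ^ (1 : ℝ) := (Real.rpow_one _).symm
    _ ≤ _ := Real.rpow_le_rpow_of_exponent_le hN1 hc.le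

/-- THE TRANSFER -/
theorem transfer (h : Adm d m r) : ∃ a : ℝ, 0 < a ∧ a ≤ 1 / 20 ∧ ∀ c : ℝ, 1 < c → c < 1 / (1 - a) →
    ∃ K : ℝ, 1 ≤ K ∧ ∀ s : ℤ, (s = 1 ∨ s = -1) → ∀ N : ℕ, 1 ≤ N → ∀ F : ℤ → ℝ,
      SyncN d (Tm d m r) ⌊(N : ℝ) ^ c⌋₊ F →
      |∑ n ∈ Icc 1 N, F (s * ⌊(n : ℝ) ^ c⌋) - ∑ x ∈ Icc 1 ⌊(N : ℝ) ^ c⌋₊, F (s * (x : ℤ)) * ell (1 / c) x|
        ≤ K * (N : ℝ) ^ (1 - a) := by
  obtain ⟨a, ha0, ha, hmain⟩ := main_bound h
  refine ⟨a, ha0, ha, ?_⟩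
  intro c hc hca
  have hc0 : 0 < c := by linarith
  obtain ⟨g0, g1⟩ := gam (by linarith) hc hca
  obtain ⟨C, hC, hb⟩ := hmain (1 - 1 / c) g0 g1
  refine ⟨C, hC, ?_⟩
  intro s hs N hN F hF
  set M := ⌊(N : ℝ) ^ c⌋₊ with hM
  have hNM : N ≤ M := floor_pow_ge hc hN
  have hM1 : 1 ≤ M := hN.trans hNM
  have hNpos : (0 : ℝ) < N := by exact_mod_cast hN
  have hN1R : (1 : ℝ) ≤ N := by exact_mod_cast hN
  have hMpos : (0 : ℝ) < M := by exact_mod_cast hM1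
  have h1 := conv hc.le N (fun z => F (s * z))
  have h2 := hb s hs M hM1 F hF
  have e1 : 1 - (1 - 1 / c) = 1 / c := by ring
  rw [e1] at h2
  have e2 : ∑ n ∈ Icc 1 N, F (s * ⌊(n : ℝ) ^ c⌋) - ∑ x ∈ Icc 1 M, F (s * (x : ℤ)) * ell (1 / c) x
      = ∑ n ∈ Icc 1 M, F (s * (n : ℤ)) * ww (1 / c) n := by
    rw [h1, ← sum_sub_distrib]
    apply sum_congr rfl
    intro x _
    unfold ww ell
    ring
  rw [e2]
  refine h2.trans ?_
  apply mul_le_mul_of_nonneg_left _ (by linarith)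
  have h3 : (M : ℝ) ≤ (N : ℝ) ^ c := Nat.floor_le (by positivity)
  have h4 : 0 ≤ 1 / c - a := by linarith
  calc (M : ℝ) ^ (1 / c - a) ≤ ((N : ℝ) ^ c) ^ (1 / c - a) := Real.rpow_le_rpow hMpos.le h3 h4
    _ = (N : ℝ) ^ (1 - a * c) := by
        rw [← Real.rpow_mul hNpos.le]
        congr 1
        field_simp
    _ ≤ (N : ℝ) ^ (1 - a) := by
        apply Real.rpow_le_rpow_of_exponent_le hN1R
        nlinarith

/-- a simple form of the hypothesis -/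
theorem syncN_of {T : ℤ → ℤ} {F : ℤ → ℝ} (hd : 1 ≤ d) (h1 : ∀ x, |F x| ≤ 1)
    (h2 : ∀ (k : ℕ) (x y : ℤ), (d : ℤ) ^ (8 * k) < |x| → (d : ℤ) ^ (8 * k) < |y| → T^[k] x = T^[k] y → F x = F y)
    (N : ℕ) : SyncN d T N F := by
  refine ⟨h1, fun k x y hk hx hy he => ?_⟩
  have h3 : (d : ℝ) ^ (8 * k) ≤ (N : ℝ) ^ (1 / 2 : ℝ) := by
    rw [mul_comm, pow_mul]
    calc ((d : ℝ) ^ k) ^ 8 ≤ ((N : ℝ) ^ (1 / 16 : ℝ)) ^ 8 := pow_le_pow_left₀ (by positivity) hk 8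
      _ = (N : ℝ) ^ (1 / 2 : ℝ) := by
          rw [← Real.rpow_natCast, ← Real.rpow_mul (Nat.cast_nonneg _)]
          congr 1
          norm_num
  refine h2 k x y ?_ ?_ he
  · have : ((d : ℝ) ^ (8 * k)) < |(x : ℝ)| := lt_of_le_of_lt h3 hx
    exact_mod_cast this
  · have : ((d : ℝ) ^ (8 * k)) < |(y : ℝ)| := lt_of_le_of_lt h3 hy
    exact_mod_cast this

/-- the integers whose trajectories never enter `[-y, y]` -/
def Av (T : ℤ → ℤ) (y : ℝ) : Set ℤ := {x : ℤ | ∀ k : ℕ, y < |((T^[k] x : ℤ) : ℝ)|}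

/-- lower bound for the first terms of a trajectory -/
theorem iter_lower (h : Adm d m r) : ∃ A : ℝ, 0 ≤ A ∧ ∀ (x : ℤ) (j : ℕ),
    |(x : ℝ)| / (d : ℝ) ^ j - 2 * A ≤ |(((Tm d m r)^[j] x : ℤ) : ℝ)| := by
  set A : ℝ := ∑ i ∈ range d, |(r i : ℝ)| with hA
  have hA0 : 0 ≤ A := sum_nonneg fun _ _ => abs_nonneg _
  have hd2 : (2 : ℝ) ≤ d := by exact_mod_cast h.two_le
  have step : ∀ x : ℤ, |(x : ℝ)| / d - A / d ≤ |((Tm d m r x : ℤ) : ℝ)| := by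
    intro x
    have h1 := iter_eq h 1 x
    obtain ⟨h2, h3⟩ := mod_toNat h.two_le x
    have e1 : Mw m (wd d m r 1 x) = m (x % d).toNat := by simp [wd, Mw]
    have e2 : Ww d m r (wd d m r 1 x) = r (x % d).toNat := by simp [wd, Ww, Mw]
    rw [e1, e2, pow_one, Function.iterate_one] at h1
    have h4 : (d : ℝ) * ((Tm d m r x : ℤ) : ℝ) = (m (x % d).toNat : ℝ) * x - r (x % d).toNat := by exact_mod_cast h1
    have h5 : (1 : ℝ) ≤ |(m (x % d).toNat : ℝ)| := by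
      have := Int.one_le_abs (m_ne h h3)
      exact_mod_cast this
    have h6 : |(r (x % d).toNat : ℝ)| ≤ A := single_le_sum (f := fun i => |(r i : ℝ)|) (fun _ _ => abs_nonneg _) (mem_range.2 h3)
    have h7 : |(x : ℝ)| - A ≤ d * |((Tm d m r x : ℤ) : ℝ)| := by
      have h8 : d * |((Tm d m r x : ℤ) : ℝ)| = |(m (x % d).toNat : ℝ) * x - r (x % d).toNat| := by
        rw [← h4, abs_mul, Nat.abs_cast]
      have h9 := abs_sub_abs_le_abs_sub ((m (x % d).toNat : ℝ) * x) (r (x % d).toNat)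
      rw [abs_mul] at h9
      have h10 : |(x : ℝ)| ≤ |(m (x % d).toNat : ℝ)| * |(x : ℝ)| := le_mul_of_one_le_left (abs_nonneg _) h5
      rw [h8]
      linarith
    rw [← sub_div, div_le_iff₀ (by linarith)]
    linarith
  refine ⟨A, hA0, fun x j => ?_⟩
  induction j with
  | zero => simp; linarith
  | succ j ih =>
    rw [Function.iterate_succ_apply']
    have h1 := step ((Tm d m r)^[j] x)
    have h2 : (|(x : ℝ)| / (d : ℝ) ^ j - 2 * A) / d ≤ |(((Tm d m r)^[j] x : ℤ) : ℝ)| / d :=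
      div_le_div_of_nonneg_right ih (by linarith)
    have h3 : (|(x : ℝ)| / (d : ℝ) ^ j - 2 * A) / d = |(x : ℝ)| / (d : ℝ) ^ (j + 1) - 2 * A / d := by
      rw [pow_succ, sub_div, div_div]
    have h4 : 3 * A / d ≤ 2 * A := by
      rw [div_le_iff₀ (by linarith)]
      nlinarith
    have h5 : 3 * A / d = 2 * A / d + A / d := by ring
    linarith

open Classical in
/-- the indicator function of a set -/
noncomputable def ind (S : Set ℤ) (x : ℤ) : ℝ := if x ∈ S then 1 else 0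

theorem ind_abs (S : Set ℤ) (x : ℤ) : |ind S x| ≤ 1 := by
  unfold ind; split_ifs <;> simp

theorem ind_nonneg (S : Set ℤ) (x : ℤ) : 0 ≤ ind S x := by
  unfold ind; split_ifs <;> simp

theorem ind_mono {S R : Set ℤ} (h : S ⊆ R) (x : ℤ) : ind S x ≤ ind R x := by
  unfold ind
  by_cases h1 : x ∈ S
  · rw [if_pos h1, if_pos (h h1)]
  · rw [if_neg h1]; split_ifs <;> simp

theorem ind_congr {S : Set ℤ} {x y : ℤ} (h : x ∈ S ↔ y ∈ S) : ind S x = ind S y := by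
  unfold ind
  by_cases h1 : x ∈ S
  · rw [if_pos h1, if_pos (h.1 h1)]
  · rw [if_neg h1, if_neg (fun h2 => h1 (h.2 h2))]

theorem av_sync (h : Adm d m r) : ∃ M0 : ℕ, ∀ N : ℕ, M0 ≤ N → ∀ y : ℝ, y ≤ (N : ℝ) ^ (1 / 3 : ℝ) →
    SyncN d (Tm d m r) N (ind (Av (Tm d m r) y)) := by
  obtain ⟨A, hA0, hA⟩ := iter_lower h
  have hd1 : (1 : ℝ) ≤ d := by
    have := h.two_le
    exact_mod_cast (by omega : 1 ≤ d)
  -- the threshold
  set B : ℝ := max 2 (4 * A) with hB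
  have hB2 : 2 ≤ B := le_max_left _ _
  have hBA : 4 * A ≤ B := le_max_right _ _
  refine ⟨⌈B ^ (1 / (1 / 12 : ℝ))⌉₊ + 1, fun N hN y hy => ⟨ind_abs _, fun k x x' hk hx hx' he => ?_⟩⟩
  have hN1 : (1 : ℝ) ≤ N := by exact_mod_cast (by omega : 1 ≤ N)
  have hNpos : (0 : ℝ) < N := by linarith
  have hBN : B ≤ (N : ℝ) ^ (1 / 12 : ℝ) := by
    apply const_le (by linarith) (by norm_num)
    refine (Nat.le_ceil _).trans ?_
    exact_mod_cast (by omega : ⌈B ^ (1 / (1 / 12 : ℝ))⌉₊ ≤ N)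
  have key : ∀ x : ℤ, (N : ℝ) ^ (1 / 2 : ℝ) < |(x : ℝ)| → ∀ j ≤ k, y < |(((Tm d m r)^[j] x : ℤ) : ℝ)| := by
    intro x hx j hj
    refine lt_of_lt_of_le ?_ (hA x j)
    have h1 : (d : ℝ) ^ j ≤ (N : ℝ) ^ (1 / 16 : ℝ) := (pow_le_pow_right₀ hd1 hj).trans hk
    have hdj : 0 < (d : ℝ) ^ j := by positivity
    have h2 : (N : ℝ) ^ (5 / 12 : ℝ) < |(x : ℝ)| / (d : ℝ) ^ j := by
      rw [lt_div_iff₀ hdj]
      refine lt_of_le_of_lt ?_ hx
      calc (N : ℝ) ^ (5 / 12 : ℝ) * (d : ℝ) ^ j ≤ (N : ℝ) ^ (5 / 12 : ℝ) * (N : ℝ) ^ (1 / 16 : ℝ) :=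
            mul_le_mul_of_nonneg_left h1 (by positivity)
        _ = (N : ℝ) ^ (5 / 12 + 1 / 16 : ℝ) := by rw [Real.rpow_add hNpos]
        _ ≤ (N : ℝ) ^ (1 / 2 : ℝ) := Real.rpow_le_rpow_of_exponent_le hN1 (by norm_num)
    have h3 : (N : ℝ) ^ (5 / 12 : ℝ) = (N : ℝ) ^ (1 / 3 : ℝ) * (N : ℝ) ^ (1 / 12 : ℝ) := by
      rw [← Real.rpow_add hNpos]; norm_num
    have h4 : 1 ≤ (N : ℝ) ^ (1 / 3 : ℝ) := Real.one_le_rpow hN1 (by norm_num)
    have h5 : (N : ℝ) ^ (1 / 3 : ℝ) + 2 * A ≤ (N : ℝ) ^ (5 / 12 : ℝ) := by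
      rw [h3]
      nlinarith
    linarith
  apply ind_congr
  have aux : ∀ x x' : ℤ, (N : ℝ) ^ (1 / 2 : ℝ) < |(x' : ℝ)| → (Tm d m r)^[k] x = (Tm d m r)^[k] x' →
      x ∈ Av (Tm d m r) y → x' ∈ Av (Tm d m r) y := by
    intro x x' hx' he hx j
    rcases le_or_gt j k with hj | hj
    · exact key x' hx' j hj
    · obtain ⟨i, rfl⟩ := Nat.exists_eq_add_of_lt hj
      have e : k + i + 1 = (i + 1) + k := by ring
      rw [e, Function.iterate_add_apply, ← he, ← Function.iterate_add_apply]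
      exact hx _
  exact ⟨aux x x' hx' he, aux x' x hx he.symm⟩

end Pool.Agent.Y965.GP
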