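import Pool.Agent.Y965.GP.Fin
import Pool.Agent.H319R3.GC.Main

/-! Almost bounded values along the sequences `⌊n ^ c⌋`. -/

set_option autoImplicit false

namespace Pool.Agent.Y965.GP

open Finset Filter Topology Pool.Agent.H319R3.GC Pool.Agent.Y965.PS

variable {d : ℕ} {m r : ℕ → ℤ}

theorem fin_abs (X : ℝ) : {x : ℤ | |(x : ℝ)| ≤ X}.Finite := by
  refine (Set.finite_Icc (-⌈X⌉) ⌈X⌉).subset ?_
  intro x hx
  have h1 := abs_le.1 (show |(x : ℝ)| ≤ X from hx)
  have h2 := Int.le_ceil X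
  simp only [Set.mem_Icc]
  constructor
  · have : ((-x : ℤ) : ℝ) ≤ ⌈X⌉ := by push_cast; linarith [h1.1]
    have : -x ≤ ⌈X⌉ := by exact_mod_cast this
    omega
  · have : (x : ℝ) ≤ ⌈X⌉ := by linarith [h1.2]
    exact_mod_cast this

/-- the elements of `S` of sign `s` up to `t` -/
theorem sum_ind_le {s : ℤ} (hs : s = 1 ∨ s = -1) (S : Set ℤ) (t : ℕ) :
    ∑ x ∈ Icc 1 t, ind S (s * (x : ℤ)) ≤ ({x : ℤ | |(x : ℝ)| ≤ t ∧ x ∈ S}.ncard : ℝ) := by
  classical
  unfold ind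
  rw [Finset.sum_boole]
  have hinj : Function.Injective (fun x : ℕ => s * (x : ℤ)) := by
    intro a b hab
    simp only at hab
    rcases hs with rfl | rfl <;> omega
  rw [← Finset.card_image_of_injective _ hinj, ← Set.ncard_coe_finset]
  refine Nat.cast_le.2 (Set.ncard_le_ncard ?_ ((fin_abs t).subset fun x hx => hx.1))
  intro x hx
  rw [coe_image, Set.mem_image] at hx
  obtain ⟨u, hu, rfl⟩ := hx
  rw [mem_coe, mem_filter, mem_Icc] at hu
  refine ⟨?_, hu.2⟩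
  have h1 : (u : ℝ) ≤ t := by exact_mod_cast hu.1.2
  push_cast
  rw [abs_mul, Nat.abs_cast]
  rcases hs with rfl | rfl <;> simpa using h1

theorem Mpow_le {c : ℝ} (hc : 1 < c) {N : ℕ} (hN : 1 ≤ N) : ((⌊(N : ℝ) ^ c⌋₊ : ℝ) + 1) ^ (1 / c) ≤ 2 * N := by
  have hN1 : (1 : ℝ) ≤ N := by exact_mod_cast hN
  have hc0 : 0 < c := by linarith
  have h1 : (⌊(N : ℝ) ^ c⌋₊ : ℝ) ≤ (N : ℝ) ^ c := Nat.floor_le (by positivity)
  have h2 := pow_gap hc.le (Nat.cast_nonneg N : (0 : ℝ) ≤ N)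
  calc ((⌊(N : ℝ) ^ c⌋₊ : ℝ) + 1) ^ (1 / c) ≤ (((N : ℝ) + 1) ^ c) ^ (1 / c) :=
        Real.rpow_le_rpow (by positivity) (by linarith) (by positivity)
    _ = (N : ℝ) + 1 := by
        rw [← Real.rpow_mul (by positivity), one_div, mul_inv_cancel₀ hc0.ne', Real.rpow_one]
    _ ≤ 2 * N := by linarith

theorem av_mono {T : ℤ → ℤ} {y y' : ℝ} (h : y' ≤ y) : Av T y ⊆ Av T y' := fun _ hx k => lt_of_le_of_lt h (hx k)

/-- THE TRAJECTORIES THAT AVOID `[-y, y]` -/
theorem av_bound (h : Adm d m r) {a c K : ℝ} (ha0 : 0 < a) (hc : 1 < c)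
    (htr : ∀ s : ℤ, (s = 1 ∨ s = -1) → ∀ N : ℕ, 1 ≤ N → ∀ F : ℤ → ℝ, SyncN d (Tm d m r) ⌊(N : ℝ) ^ c⌋₊ F →
      |∑ n ∈ Icc 1 N, F (s * ⌊(n : ℝ) ^ c⌋) - ∑ x ∈ Icc 1 ⌊(N : ℝ) ^ c⌋₊, F (s * (x : ℤ)) * ell (1 / c) x|
        ≤ K * (N : ℝ) ^ (1 - a)) (hK : 1 ≤ K) (B : ℕ) :
    ∃ C : ℝ, 0 < C ∧ ∀ s : ℤ, (s = 1 ∨ s = -1) → ∀ (N : ℕ) (y : ℝ), 1 ≤ N → 2 ≤ y →
      ∑ n ∈ Icc 1 N, ind (Av (Tm d m r) y) (s * ⌊(n : ℝ) ^ c⌋) ≤ C * N / Real.log y ^ B := by
  obtain ⟨C1, hC1, hm⟩ := Pool.Agent.H319R3.GC.main h B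
  obtain ⟨M0, hM0⟩ := av_sync h
  have hc0 : 0 < c := by linarith
  have hγ0 : 0 < 1 / c := by positivity
  have hγ1 : 1 / c < 1 := by rw [div_lt_one hc0]; exact hc
  set M1 : ℕ := max M0 8 with hM1
  set sg : ℝ := a / (B + 1) with hsg
  have hsg0 : 0 < sg := by positivity
  set C2 : ℝ := (c * (1 / sg)) ^ B with hC2
  have hC20 : 0 < C2 := by positivity
  have hlM1 : 0 < Real.log M1 := Real.log_pos (by
    have : (8 : ℝ) ≤ M1 := by exact_mod_cast le_max_right M0 8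
    linarith)
  set C : ℝ := Real.log M1 ^ B + 2 * 3 ^ B * C1 + K * C2 with hC
  have hC0 : 0 < C := by positivity
  refine ⟨C, hC0, ?_⟩
  intro s hs N y hN hy
  have hNpos : (0 : ℝ) < N := by exact_mod_cast hN
  have hN1R : (1 : ℝ) ≤ N := by exact_mod_cast hN
  have hly : 0 < Real.log y := Real.log_pos (by linarith)
  have hlyB : 0 < Real.log y ^ B := by positivity
  set M := ⌊(N : ℝ) ^ c⌋₊ with hM
  have hNM : N ≤ M := floor_pow_ge hc hN
  have hM1' : 1 ≤ M := hN.trans hNM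
  have hMpos : (0 : ℝ) < M := by exact_mod_cast hM1'
  have hMc : (M : ℝ) ≤ (N : ℝ) ^ c := Nat.floor_le (by positivity)
  rcases le_or_gt (M : ℝ) y with hyM | hyM
  · have h0 : ∑ n ∈ Icc 1 N, ind (Av (Tm d m r) y) (s * ⌊(n : ℝ) ^ c⌋) = 0 := by
      apply sum_eq_zero
      intro n hn
      rw [mem_Icc] at hn
      unfold ind
      rw [if_neg]
      intro hmem
      have h1 := hmem 0
      rw [Function.iterate_zero, id] at h1
      have h2 : |((s * ⌊(n : ℝ) ^ c⌋ : ℤ) : ℝ)| ≤ M := by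
        push_cast
        have e7 : |(s : ℝ)| = 1 := by rcases hs with rfl | rfl <;> simp
        have h3 : (0 : ℝ) ≤ (n : ℝ) ^ c := by positivity
        have h4 : (⌊(n : ℝ) ^ c⌋₊ : ℝ) = (⌊(n : ℝ) ^ c⌋ : ℝ) := by
          have := Int.natCast_floor_eq_floor h3
          exact_mod_cast congrArg (fun z : ℤ => (z : ℝ)) this
        rw [abs_mul, e7, one_mul, ← h4, Nat.abs_cast]
        have h5 : ⌊(n : ℝ) ^ c⌋₊ ≤ M := by
          apply Nat.floor_le_floor
          exact Real.rpow_le_rpow (by positivity) (by exact_mod_cast hn.2) hc0.le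
        exact_mod_cast h5
      linarith
    rw [h0]
    positivity
  · have hlogyM : Real.log y ≤ Real.log M := Real.log_le_log (by linarith) hyM.le
    have hsumN : ∀ z : ℝ, ∑ n ∈ Icc 1 N, ind (Av (Tm d m r) z) (s * ⌊(n : ℝ) ^ c⌋) ≤ N := by
      intro z
      calc ∑ n ∈ Icc 1 N, ind (Av (Tm d m r) z) (s * ⌊(n : ℝ) ^ c⌋) ≤ ∑ n ∈ Icc 1 N, (1 : ℝ) :=
            sum_le_sum fun n _ => (abs_le.1 (ind_abs _ _)).2
        _ = N := by simp
    rcases lt_or_ge M M1 with hlt | hge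
    · rw [le_div_iff₀ hlyB]
      have h1 : Real.log y ^ B ≤ Real.log M1 ^ B := by
        apply pow_le_pow_left₀ hly.le
        refine hlogyM.trans (Real.log_le_log hMpos ?_)
        exact_mod_cast hlt.le
      have h2 := hsumN y
      have h3 : (∑ n ∈ Icc 1 N, ind (Av (Tm d m r) y) (s * ⌊(n : ℝ) ^ c⌋)) * Real.log y ^ B ≤ N * Real.log M1 ^ B :=
        mul_le_mul h2 h1 hlyB.le hNpos.le
      refine h3.trans ?_
      rw [hC]
      have h4 : 0 ≤ 2 * 3 ^ B * C1 + K * C2 := by positivity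
      nlinarith
    · have hM8 : (8 : ℝ) ≤ M := by exact_mod_cast (le_max_right M0 8).trans hge
      set y' := min y ((M : ℝ) ^ (1 / 3 : ℝ)) with hy'
      have hM3 : (2 : ℝ) ≤ (M : ℝ) ^ (1 / 3 : ℝ) := by
        have h1 : (8 : ℝ) ^ (1 / 3 : ℝ) ≤ (M : ℝ) ^ (1 / 3 : ℝ) := Real.rpow_le_rpow (by norm_num) hM8 (by norm_num)
        have h2 : (8 : ℝ) ^ (1 / 3 : ℝ) = 2 := by
          have h8 : (8 : ℝ) = 2 ^ (3 : ℝ) := by norm_num
          rw [h8, ← Real.rpow_mul (by norm_num)]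
          norm_num
        linarith
      have hy'2 : 2 ≤ y' := le_min hy hM3
      have hly' : 0 < Real.log y' := Real.log_pos (by linarith)
      have hlog3 : Real.log y / 3 ≤ Real.log y' := by
        rw [hy']
        rcases min_cases y ((M : ℝ) ^ (1 / 3 : ℝ)) with ⟨e, -⟩ | ⟨e, -⟩
        · rw [e]; linarith
        · rw [e, Real.log_rpow hMpos]; linarith
      have hsync := hM0 M ((le_max_left M0 8).trans hge) y' (min_le_right _ _)
      have h1 := htr s hs N hN _ hsync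
      -- the sum over the integers
      have h2 : ∀ t : ℕ, |∑ x ∈ Icc 1 t, ind (Av (Tm d m r) y') (s * (x : ℤ)) - 0 * t| ≤ (C1 / Real.log y' ^ B) * t + 0 := by
        intro t
        rw [zero_mul, sub_zero, add_zero, abs_of_nonneg (sum_nonneg fun _ _ => ind_nonneg _ _)]
        rcases Nat.eq_zero_or_pos t with h0 | h0
        · rw [h0]; simp
        · refine (sum_ind_le hs _ t).trans ?_
          have h3 := hm (t : ℝ) y' (by exact_mod_cast h0) hy'2
          refine h3.trans (le_of_eq ?_)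
          ring
      have h3 := abel hγ0 hγ1 (a := fun x : ℕ => ind (Av (Tm d m r) y') (s * (x : ℤ))) (δ := 0)
        (ε := C1 / Real.log y' ^ B) (C := 0) (by positivity) le_rfl h2 M
      rw [zero_mul, sub_zero, add_zero] at h3
      have h4 := (abs_le.1 h3).2
      have h5 : (C1 / Real.log y' ^ B) * ((M : ℝ) + 1) ^ (1 / c) ≤ (C1 / Real.log y' ^ B) * (2 * N) :=
        mul_le_mul_of_nonneg_left (Mpow_le hc hN) (by positivity)
      have h6 : C1 / Real.log y' ^ B ≤ 3 ^ B * C1 / Real.log y ^ B := by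
        rw [div_le_div_iff₀ (by positivity) hlyB]
        have h7 : (Real.log y) ^ B ≤ 3 ^ B * Real.log y' ^ B := by
          rw [← mul_pow]
          exact pow_le_pow_left₀ hly.le (by linarith) B
        nlinarith
      have h8 : Real.log y ^ B ≤ C2 * (N : ℝ) ^ a := by
        have h9 : Real.log M ≤ c * Real.log N := by
          rw [← Real.log_rpow hNpos]
          exact Real.log_le_log hMpos hMc
        have h10 : Real.log N ≤ 1 / sg * (N : ℝ) ^ sg := log_le hsg0 hN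
        have h11 : Real.log y ≤ c * (1 / sg) * (N : ℝ) ^ sg := by
          calc Real.log y ≤ c * Real.log N := hlogyM.trans h9
            _ ≤ c * (1 / sg * (N : ℝ) ^ sg) := mul_le_mul_of_nonneg_left h10 hc0.le
            _ = _ := by ring
        calc Real.log y ^ B ≤ (c * (1 / sg) * (N : ℝ) ^ sg) ^ B := pow_le_pow_left₀ hly.le h11 B
          _ = C2 * ((N : ℝ) ^ sg) ^ B := by rw [mul_pow, hC2]
          _ ≤ C2 * (N : ℝ) ^ a := by
              apply mul_le_mul_of_nonneg_left _ hC20.le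
              rw [← Real.rpow_natCast, ← Real.rpow_mul hNpos.le]
              apply Real.rpow_le_rpow_of_exponent_le hN1R
              rw [hsg, div_mul_eq_mul_div, div_le_iff₀ (by positivity)]
              nlinarith
      have h12 : K * (N : ℝ) ^ (1 - a) ≤ K * C2 * N / Real.log y ^ B := by
        rw [le_div_iff₀ hlyB]
        have e3 : (N : ℝ) ^ (1 - a) * (N : ℝ) ^ a = N := by
          rw [← Real.rpow_add hNpos]; simp
        calc K * (N : ℝ) ^ (1 - a) * Real.log y ^ B ≤ K * (N : ℝ) ^ (1 - a) * (C2 * (N : ℝ) ^ a) :=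
              mul_le_mul_of_nonneg_left h8 (by positivity)
          _ = K * C2 * ((N : ℝ) ^ (1 - a) * (N : ℝ) ^ a) := by ring
          _ = _ := by rw [e3]
      have h13 : ∑ n ∈ Icc 1 N, ind (Av (Tm d m r) y) (s * ⌊(n : ℝ) ^ c⌋) ≤
          ∑ n ∈ Icc 1 N, ind (Av (Tm d m r) y') (s * ⌊(n : ℝ) ^ c⌋) :=
        sum_le_sum fun n _ => ind_mono (av_mono (min_le_left _ _)) _
      have h14 := (abs_le.1 h1).2
      have h15 : (C1 / Real.log y' ^ B) * (2 * N) ≤ 3 ^ B * C1 / Real.log y ^ B * (2 * N) :=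
        mul_le_mul_of_nonneg_right h6 (by positivity)
      have h16 : C * N / Real.log y ^ B = Real.log M1 ^ B * N / Real.log y ^ B + 3 ^ B * C1 / Real.log y ^ B * (2 * N)
          + K * C2 * N / Real.log y ^ B := by rw [hC]; ring
      have h17 : 0 ≤ Real.log M1 ^ B * N / Real.log y ^ B := by positivity
      rw [h16]
      linarith

end Pool.Agent.Y965.GP
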