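import Pool.Agent.Y965.GP.Par

/-! The transfer inequality for the generalised Collatz maps of coprime type. -/

set_option autoImplicit false

namespace Pool.Agent.Y965.GP

open Finset Pool.Agent.H319R3.GC Pool.Agent.Y965.PS

variable {d : ℕ} {m r : ℕ → ℤ}

/-- bounded functions that take the same value at large `x` and `y` whenever the trajectories are at the
same point at the same time `k`, `d ^ k ≤ N ^ (1 / 16)` -/
def SyncN (d : ℕ) (T : ℤ → ℤ) (N : ℕ) (F : ℤ → ℝ) : Prop :=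
  (∀ x, |F x| ≤ 1) ∧ ∀ (k : ℕ) (x y : ℤ), (d : ℝ) ^ k ≤ (N : ℝ) ^ (1 / 16 : ℝ) → (N : ℝ) ^ (1 / 2 : ℝ) < |(x : ℝ)| →
    (N : ℝ) ^ (1 / 2 : ℝ) < |(y : ℝ)| → T^[k] x = T^[k] y → F x = F y

theorem trivial_bound {x : ℝ} {F : ℕ → ℝ} (hF : ∀ n, |F n| ≤ 1) (N : ℕ) :
    |∑ m ∈ Icc 1 N, F m * ww (1 - x) m| ≤ N := by
  refine (abs_sum_le_sum_abs _ _).trans ?_
  have h2 : ∀ m ∈ Icc 1 N, |F m * ww (1 - x) m| ≤ 1 := by
    intro m _
    rw [abs_mul]
    nlinarith [hF m, ww_le_one (1 - x) m, abs_nonneg (F m), abs_nonneg (ww (1 - x) m)]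
  refine (sum_le_sum h2).trans ?_
  simp

theorem const_le {C b : ℝ} (hC : 1 ≤ C) (hb : 0 < b) {N : ℕ} (hN : C ^ (1 / b) ≤ N) : C ≤ (N : ℝ) ^ b := by
  have h1 : (C ^ (1 / b)) ^ b ≤ (N : ℝ) ^ b := Real.rpow_le_rpow (by positivity) hN hb.le
  rwa [← Real.rpow_mul (by linarith), one_div, inv_mul_cancel₀ hb.ne', Real.rpow_one] at h1

theorem main_bound (h : Adm d m r) : ∃ a : ℝ, 0 < a ∧ a ≤ 1 / 20 ∧ ∀ x : ℝ, 0 < x → x ≤ a →
    ∃ C : ℝ, 1 ≤ C ∧ ∀ s : ℤ, (s = 1 ∨ s = -1) → ∀ N : ℕ, 1 ≤ N → ∀ F : ℤ → ℝ, SyncN d (Tm d m r) N F →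
      |∑ n ∈ Icc 1 N, F (s * (n : ℤ)) * ww (1 - x) n| ≤ C * (N : ℝ) ^ (1 - x - a) := by
  obtain ⟨σ, ρ, C0, lam, hσ0, hσ1, hρ0, hρσ, hC0, hl0, hl1, hkd⟩ := kd h
  have hd2 := h.two_le
  have hdR : (2 : ℝ) ≤ d := by exact_mod_cast hd2
  have hd0 : (0 : ℝ) < d := by linarith
  set ℓ := Real.log d with hℓ
  have hℓ0 : 0 < ℓ := Real.log_pos (by linarith)
  set τ := 1 / (16 * ℓ) with hτ
  have hτ0 : 0 < τ := by positivity
  have hlσ : 0 < -Real.log σ := by have := Real.log_neg hσ0 hσ1; linarith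
  set b1 := τ * (-Real.log σ) with hb1
  have hb10 : 0 < b1 := mul_pos hτ0 hlσ
  set b := min b1 (lam / 8) with hb
  have hb0 : 0 < b := lt_min hb10 (by positivity)
  have hbb1 : b ≤ b1 := min_le_left _ _
  have hbl : b ≤ lam / 8 := min_le_right _ _
  set C3 := τ * (4 * d / b) + 1 with hC3
  have hC31 : 1 ≤ C3 := by
    rw [hC3]
    have : 0 ≤ τ * (4 * d / b) := by positivity
    linarith
  set C4 := (2 / σ + 3) * C3 ^ d with hC4
  have h3d : 1 ≤ C3 ^ d := one_le_pow₀ hC31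
  have hC41 : 1 ≤ C4 := by
    have : 0 < 2 / σ := by positivity
    rw [hC4]
    nlinarith
  set C5 := 2 * (1 / σ + C0) with hC5
  have hC51 : 1 ≤ C5 := by
    have : 1 ≤ 1 / σ := by rw [le_div_iff₀ hσ0]; linarith
    rw [hC5]
    linarith
  set N0 : ℕ := max 1024 (⌈C4 ^ (1 / (b / 4))⌉₊ + ⌈C5 ^ (1 / (b / 4))⌉₊) with hN0
  refine ⟨b / 16, by positivity, by linarith, ?_⟩
  intro x hx0 hxa
  obtain ⟨C, hC, hone⟩ := one_N hx0 hxa (by linarith)
  have hex : 0 ≤ 1 - x - b / 16 := by linarith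
  refine ⟨C + N0, by have : (0 : ℝ) ≤ N0 := Nat.cast_nonneg _; linarith, ?_⟩
  intro s hs N hN F hF
  have hNpos : (0 : ℝ) < N := by exact_mod_cast hN
  have hN1R : (1 : ℝ) ≤ N := by exact_mod_cast hN
  have hE1 : 1 ≤ (N : ℝ) ^ (1 - x - b / 16) := Real.one_le_rpow hN1R hex
  rcases lt_or_ge N N0 with hlt | hge
  · have h1 := trivial_bound (x := x) (F := fun n : ℕ => F (s * (n : ℤ))) (fun n => hF.1 _) N
    have h2 : (N : ℝ) ≤ N0 := by exact_mod_cast hlt.le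
    have h3 : (0 : ℝ) ≤ N0 := Nat.cast_nonneg _
    refine h1.trans ?_
    nlinarith
  · have hN1024 : 1024 ≤ N := (le_max_left _ _).trans hge
    have hc4 : C4 ≤ (N : ℝ) ^ (b / 4) := by
      apply const_le hC41 (by positivity)
      refine (Nat.le_ceil _).trans ?_
      have : ⌈C4 ^ (1 / (b / 4))⌉₊ ≤ N := by
        have := (le_max_right 1024 (⌈C4 ^ (1 / (b / 4))⌉₊ + ⌈C5 ^ (1 / (b / 4))⌉₊)).trans hge
        omega
      exact_mod_cast this
    have hc5 : C5 ≤ (N : ℝ) ^ (b / 4) := by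
      apply const_le hC51 (by positivity)
      refine (Nat.le_ceil _).trans ?_
      have : ⌈C5 ^ (1 / (b / 4))⌉₊ ≤ N := by
        have := (le_max_right 1024 (⌈C4 ^ (1 / (b / 4))⌉₊ + ⌈C5 ^ (1 / (b / 4))⌉₊)).trans hge
        omega
      exact_mod_cast this
    set L := Real.log N with hL
    have hL0 : 0 ≤ L := Real.log_natCast_nonneg N
    have hexp : Real.exp L = N := Real.exp_log hNpos
    have hpow : ∀ t : ℝ, (N : ℝ) ^ t = Real.exp (t * L) := by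
      intro t
      rw [← hexp, ← Real.exp_mul]; congr 1; ring
    set k := ⌊τ * L⌋₊ with hk
    have hk1 : (k : ℝ) ≤ τ * L := Nat.floor_le (by positivity)
    have hk2 : τ * L < k + 1 := Nat.lt_floor_add_one _
    set R := (N : ℝ) ^ (1 / 8 : ℝ) with hR
    have hR1 : 1 ≤ R := Real.one_le_rpow hN1R (by norm_num)
    -- `d ^ k ≤ N ^ (1 / 16)`
    have hdk : (d : ℝ) ^ k ≤ (N : ℝ) ^ (1 / 16 : ℝ) := by
      have h1 : (d : ℝ) ^ k = Real.exp (k * ℓ) := by rw [Real.exp_nat_mul, hℓ, Real.exp_log hd0]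
      rw [h1, hpow]
      apply Real.exp_le_exp.2
      have h2 : (k : ℝ) * ℓ ≤ τ * L * ℓ := mul_le_mul_of_nonneg_right hk1 hℓ0.le
      have h3 : τ * L * ℓ = 1 / 16 * L := by rw [hτ]; field_simp
      linarith
    have hdkN : d ^ k ≤ N := by
      have h1 : ((d : ℝ) ^ k) ≤ N := by
        refine hdk.trans ?_
        calc (N : ℝ) ^ (1 / 16 : ℝ) ≤ (N : ℝ) ^ (1 : ℝ) := Real.rpow_le_rpow_of_exponent_le hN1R (by norm_num)
          _ = N := Real.rpow_one _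
      exact_mod_cast h1
    have K := hkd s hs k N R hdkN hR1
    have hσk : σ ^ k ≤ 1 / σ * (N : ℝ) ^ (-b) := by
      have h1 : σ ^ (k + 1) ≤ (N : ℝ) ^ (-b) := by
        have h2 : σ ^ (k + 1) = Real.exp ((k + 1 : ℕ) * Real.log σ) := by rw [Real.exp_nat_mul, Real.exp_log hσ0]
        rw [h2, hpow]
        apply Real.exp_le_exp.2
        push_cast
        have h3 : ((k : ℝ) + 1) * (-Real.log σ) ≥ τ * L * (-Real.log σ) := mul_le_mul_of_nonneg_right hk2.le hlσ.le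
        have h4 : τ * L * (-Real.log σ) = b1 * L := by rw [hb1]; ring
        have h5 : b * L ≤ b1 * L := mul_le_mul_of_nonneg_right hbb1 hL0
        linarith
      rw [pow_succ] at h1
      rw [one_div, inv_mul_eq_div, le_div_iff₀ hσ0]
      exact h1
    have hNb : (N : ℝ) * (N : ℝ) ^ (-b) = (N : ℝ) ^ (1 - b) := by
      calc (N : ℝ) * (N : ℝ) ^ (-b) = (N : ℝ) ^ (1 : ℝ) * (N : ℝ) ^ (-b) := by rw [Real.rpow_one]
        _ = _ := by rw [← Real.rpow_add hNpos]; congr 1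
    have hRb : R ≤ (N : ℝ) ^ (1 - b) := Real.rpow_le_rpow_of_exponent_le hN1R (by linarith)
    have h1b : 1 ≤ (N : ℝ) ^ (1 - b) := Real.one_le_rpow hN1R (by linarith)
    -- the number of keys
    have hV : (2 * (N * σ ^ k + R) + 1) * ((k : ℝ) + 1) ^ d ≤ (N : ℝ) ^ (1 - 8 * (b / 16)) := by
      have g1 : (2 * (N * σ ^ k + R) + 1) ≤ (2 / σ + 3) * (N : ℝ) ^ (1 - b) := by
        have g2 : N * σ ^ k ≤ 1 / σ * (N : ℝ) ^ (1 - b) := by
          rw [← hNb]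
          calc N * σ ^ k ≤ N * (1 / σ * (N : ℝ) ^ (-b)) := mul_le_mul_of_nonneg_left hσk hNpos.le
            _ = _ := by ring
        have g3 : (2 / σ + 3) * (N : ℝ) ^ (1 - b) = 2 * (1 / σ * (N : ℝ) ^ (1 - b)) + 3 * (N : ℝ) ^ (1 - b) := by ring
        linarith
      have g4 : ((k : ℝ) + 1) ^ d ≤ C3 ^ d * (N : ℝ) ^ (b / 4) := by
        have g5 : (k : ℝ) + 1 ≤ C3 * (N : ℝ) ^ (b / (4 * d)) := by
          have g6 := log_le (s := b / (4 * d)) (by positivity) hN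
          rw [← hL] at g6
          have g7 : 1 / (b / (4 * (d : ℝ))) = 4 * d / b := by field_simp
          rw [g7] at g6
          have g8 : 1 ≤ (N : ℝ) ^ (b / (4 * d)) := Real.one_le_rpow hN1R (by positivity)
          have g9 : τ * L ≤ τ * (4 * d / b * (N : ℝ) ^ (b / (4 * d))) := mul_le_mul_of_nonneg_left g6 hτ0.le
          have g10 : C3 * (N : ℝ) ^ (b / (4 * d)) = τ * (4 * d / b * (N : ℝ) ^ (b / (4 * d))) + (N : ℝ) ^ (b / (4 * d)) := by
            rw [hC3]; ring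
          linarith
        calc ((k : ℝ) + 1) ^ d ≤ (C3 * (N : ℝ) ^ (b / (4 * d))) ^ d := pow_le_pow_left₀ (by positivity) g5 d
          _ = C3 ^ d * (N : ℝ) ^ (b / 4) := by
              rw [mul_pow, ← Real.rpow_natCast ((N : ℝ) ^ (b / (4 * d))), ← Real.rpow_mul hNpos.le]
              congr 2
              field_simp
      calc (2 * (N * σ ^ k + R) + 1) * ((k : ℝ) + 1) ^ d
          ≤ ((2 / σ + 3) * (N : ℝ) ^ (1 - b)) * (C3 ^ d * (N : ℝ) ^ (b / 4)) :=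
            mul_le_mul g1 g4 (by positivity) (by positivity)
        _ = C4 * ((N : ℝ) ^ (1 - b) * (N : ℝ) ^ (b / 4)) := by rw [hC4]; ring
        _ ≤ (N : ℝ) ^ (b / 4) * ((N : ℝ) ^ (1 - b) * (N : ℝ) ^ (b / 4)) := mul_le_mul_of_nonneg_right hc4 (by positivity)
        _ = (N : ℝ) ^ (b / 4 + (1 - b + b / 4)) := by rw [← Real.rpow_add hNpos, ← Real.rpow_add hNpos]
        _ = _ := by congr 1; ring
    have hB : 2 * N * (σ ^ k + C0 * R ^ (-lam)) ≤ (N : ℝ) ^ (1 - 2 * (b / 16)) := by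
      have g1 : R ^ (-lam) ≤ (N : ℝ) ^ (-b) := by
        rw [hR, ← Real.rpow_mul hNpos.le]
        apply Real.rpow_le_rpow_of_exponent_le hN1R
        linarith
      have g2 : σ ^ k + C0 * R ^ (-lam) ≤ (1 / σ + C0) * (N : ℝ) ^ (-b) := by
        rw [add_mul]
        exact add_le_add hσk (mul_le_mul_of_nonneg_left g1 hC0)
      calc 2 * N * (σ ^ k + C0 * R ^ (-lam)) ≤ 2 * N * ((1 / σ + C0) * (N : ℝ) ^ (-b)) :=
            mul_le_mul_of_nonneg_left g2 (by positivity)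
        _ = C5 * (N * (N : ℝ) ^ (-b)) := by rw [hC5]; ring
        _ = C5 * (N : ℝ) ^ (1 - b) := by rw [hNb]
        _ ≤ (N : ℝ) ^ (b / 4) * (N : ℝ) ^ (1 - b) := mul_le_mul_of_nonneg_right hc5 (by positivity)
        _ = (N : ℝ) ^ (b / 4 + (1 - b)) := by rw [← Real.rpow_add hNpos]
        _ ≤ _ := Real.rpow_le_rpow_of_exponent_le hN1R (by linarith)
    have hQH : ((d ^ k : ℕ) : ℝ) * (2 * R * (d : ℝ) ^ k) ≤ (N : ℝ) ^ (1 / 2 : ℝ) := by
      push_cast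
      have g1 : (2 : ℝ) ≤ (N : ℝ) ^ (1 / 10 : ℝ) := by
        have h5 : (1024 : ℝ) ≤ N := by exact_mod_cast hN1024
        have h6 : (1024 : ℝ) ^ (1 / 10 : ℝ) ≤ (N : ℝ) ^ (1 / 10 : ℝ) := Real.rpow_le_rpow (by norm_num) h5 (by norm_num)
        have h7 : (1024 : ℝ) ^ (1 / 10 : ℝ) = 2 := by
          have h8 : (1024 : ℝ) = 2 ^ (10 : ℝ) := by norm_num
          rw [h8, ← Real.rpow_mul (by norm_num)]
          norm_num
        rw [h7] at h6
        exact h6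
      calc (d : ℝ) ^ k * (2 * R * (d : ℝ) ^ k) = 2 * R * (d : ℝ) ^ k * (d : ℝ) ^ k := by ring
        _ ≤ (N : ℝ) ^ (1 / 10 : ℝ) * (N : ℝ) ^ (1 / 8 : ℝ) * (N : ℝ) ^ (1 / 16 : ℝ) * (N : ℝ) ^ (1 / 16 : ℝ) := by
            rw [hR] at *
            gcongr
        _ = (N : ℝ) ^ (1 / 10 + 1 / 8 + 1 / 16 + 1 / 16 : ℝ) := by
            rw [Real.rpow_add hNpos, Real.rpow_add hNpos, Real.rpow_add hNpos]
        _ ≤ _ := Real.rpow_le_rpow_of_exponent_le hN1R (by norm_num)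
    have habs : ∀ n : ℕ, |((s * (n : ℤ) : ℤ) : ℝ)| = n := by
      intro n
      push_cast
      rw [abs_mul, Nat.abs_cast]
      rcases hs with rfl | rfl <;> simp
    have hfin := hone (ℤ × ℤ) N (d ^ k) _ _ _ _ _ K hN1024 hQH hV hB (fun n : ℕ => F (s * (n : ℤ)))
      (fun n => hF.1 _) (fun n n' hn hn' _ _ hkk => by
        unfold key at hkk
        rw [Prod.mk.injEq] at hkk
        refine hF.2 k _ _ hdk ?_ ?_ hkk.1
        · rw [habs n]; exact hn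
        · rw [habs n']; exact hn')
    refine hfin.trans ?_
    apply mul_le_mul_of_nonneg_right _ (by positivity)
    have : (0 : ℝ) ≤ N0 := Nat.cast_nonneg _
    linarith

end Pool.Agent.Y965.GP
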