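import Pool.Agent.Y965.GP.Ab2
import Pool.Agent.H319R3.GC.W1
import Pool.Agent.H319R3.GC.W2

/-! The key of a generalised Collatz map: the point and the multiplier at the time `k`. -/

set_option autoImplicit false

namespace Pool.Agent.Y965.GP

open Finset Pool.Agent.H319R3.GC

variable {d : ℕ} {m r : ℕ → ℤ}

theorem mod_toNat (h : 2 ≤ d) (x : ℤ) : ((x % d).toNat : ℤ) = x % d ∧ (x % d).toNat < d := by
  have h0 : 0 ≤ x % d := Int.emod_nonneg _ (by omega)
  have h1 : x % d < d := Int.emod_lt_of_pos _ (by omega)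
  have h2 : ((x % d).toNat : ℤ) = x % d := Int.toNat_of_nonneg h0
  exact ⟨h2, by omega⟩

theorem m_ne (h : Adm d m r) {i : ℕ} (hi : i < d) : m i ≠ 0 := by
  intro h0
  have h1 := h.cop i hi
  rw [h0, isCoprime_zero_left] at h1
  have h2 := h.two_le
  have h3 := Int.isUnit_iff.1 h1
  omega

theorem Tm_shift (h : 2 ≤ d) (x v : ℤ) : Tm d m r (x + d * v) = Tm d m r x + m (x % d).toNat * v := by
  unfold Tm
  have hd : (d : ℤ) ≠ 0 := by omega
  rw [Int.add_mul_emod_self_left]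
  have e : m (x % d).toNat * (x + d * v) - r (x % d).toNat =
      (m (x % d).toNat * x - r (x % d).toNat) + (m (x % d).toNat * v) * d := by ring
  rw [e, Int.add_mul_ediv_right _ _ hd]

theorem wd_shift (h : 2 ≤ d) : ∀ (k : ℕ) (x v : ℤ), wd d m r k (x + d ^ k * v) = wd d m r k x := by
  intro k
  induction k with
  | zero => intro x v; simp [wd]
  | succ k ih =>
    intro x v
    have e : x + (d : ℤ) ^ (k + 1) * v = x + d * (d ^ k * v) := by ring
    rw [e]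
    simp only [wd]
    rw [Tm_shift h, Int.add_mul_emod_self_left]
    have e2 : Tm d m r x + m (x % d).toNat * ((d : ℤ) ^ k * v) = Tm d m r x + (d : ℤ) ^ k * (m (x % d).toNat * v) := by ring
    rw [e2, ih]

theorem iter_shift (h : Adm d m r) (k : ℕ) (x v : ℤ) :
    (Tm d m r)^[k] (x + d ^ k * v) = (Tm d m r)^[k] x + Mw m (wd d m r k x) * v := by
  have h1 := iter_eq h k (x + d ^ k * v)
  have h2 := iter_eq h k x
  rw [wd_shift h.two_le] at h1
  have hd : ((d : ℤ) ^ k) ≠ 0 := by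
    apply pow_ne_zero
    have := h.two_le
    omega
  apply mul_left_cancel₀ hd
  linear_combination h1 - h2

/-- the good integers at the time `k` -/
def Gd (d : ℕ) (m r : ℕ → ℤ) (ρ R : ℝ) (s : ℤ) (k : ℕ) (n : ℕ) : Prop :=
  |(Mw m (wd d m r k (s * n)) : ℝ)| ≤ (ρ * d) ^ k ∧ |(Ww d m r (wd d m r k (s * n)) : ℝ)| ≤ R * (d : ℝ) ^ k

/-- the key -/
def key (d : ℕ) (m r : ℕ → ℤ) (s : ℤ) (k : ℕ) (n : ℕ) : ℤ × ℤ :=
  ((Tm d m r)^[k] (s * n), Mw m (wd d m r k (s * n)))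

theorem wd_s (h : 2 ≤ d) (s : ℤ) (k n v : ℕ) : wd d m r k (s * ((n + d ^ k * v : ℕ) : ℤ)) = wd d m r k (s * n) := by
  have e : s * ((n + d ^ k * v : ℕ) : ℤ) = s * n + (d : ℤ) ^ k * (s * v) := by push_cast; ring
  rw [e, wd_shift h]

theorem gd_shift (h : 2 ≤ d) (ρ R : ℝ) (s : ℤ) (k n v : ℕ) :
    Gd d m r ρ R s k (n + d ^ k * v) ↔ Gd d m r ρ R s k n := by
  unfold Gd
  rw [wd_s h]

theorem key_shift (h : Adm d m r) (s : ℤ) (k n v : ℕ) :
    key d m r s k (n + d ^ k * v) = ((key d m r s k n).1 + (key d m r s k n).2 * (s * v), (key d m r s k n).2) := by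
  unfold key
  dsimp only
  rw [wd_s h.two_le]
  have e : s * ((n + d ^ k * v : ℕ) : ℤ) = s * n + (d : ℤ) ^ k * (s * v) := by push_cast; ring
  rw [e, iter_shift h]

theorem one_le_Mw (h : Adm d m r) (k : ℕ) (x : ℤ) : (1 : ℝ) ≤ |(Mw m (wd d m r k x) : ℝ)| := by
  have h1 : Mw m (wd d m r k x) ≠ 0 := Mw_ne_zero h (mem_LW.1 (wd_mem h.two_le k x)).2
  have h2 : 1 ≤ |Mw m (wd d m r k x)| := Int.one_le_abs h1
  exact_mod_cast h2

theorem key_small (h : Adm d m r) {ρ R : ℝ} {s : ℤ} (hs : s = 1 ∨ s = -1) {k n u : ℕ} (h1 : Gd d m r ρ R s k n)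
    (h2 : Gd d m r ρ R s k (n + u)) (hk : key d m r s k n = key d m r s k (n + u)) :
    (u : ℝ) ≤ 2 * R * (d : ℝ) ^ k := by
  unfold key at hk
  rw [Prod.mk.injEq] at hk
  have e1 := iter_eq h k (s * n)
  have e2 := iter_eq h k (s * ((n + u : ℕ) : ℤ))
  rw [← hk.1, ← hk.2] at e2
  have e3 : Mw m (wd d m r k (s * n)) * (s * u) = Ww d m r (wd d m r k (s * ((n + u : ℕ) : ℤ))) - Ww d m r (wd d m r k (s * n)) := by
    have e4 : s * ((n + u : ℕ) : ℤ) = s * n + s * u := by push_cast; ring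
    rw [e4] at e2 ⊢
    linear_combination e1 - e2
  have e5 : |(Mw m (wd d m r k (s * n)) : ℝ)| * u =
      |(Ww d m r (wd d m r k (s * ((n + u : ℕ) : ℤ))) : ℝ) - Ww d m r (wd d m r k (s * n))| := by
    have e6 : ((Mw m (wd d m r k (s * n)) * (s * u) : ℤ) : ℝ) = ((Ww d m r (wd d m r k (s * ((n + u : ℕ) : ℤ))) - Ww d m r (wd d m r k (s * n)) : ℤ) : ℝ) := by
      rw [e3]
    push_cast at e6 ⊢
    rw [← e6, abs_mul, abs_mul]
    have e7 : |(s : ℝ)| = 1 := by rcases hs with rfl | rfl <;> simp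
    rw [e7, one_mul, Nat.abs_cast]
  have e8 := abs_sub (Ww d m r (wd d m r k (s * ((n + u : ℕ) : ℤ))) : ℝ) (Ww d m r (wd d m r k (s * n)))
  have e9 := one_le_Mw h k (s * n)
  have e10 : (u : ℝ) ≤ |(Mw m (wd d m r k (s * n)) : ℝ)| * u := le_mul_of_one_le_left (Nat.cast_nonneg _) e9
  have a1 := h1.2
  have a2 := h2.2
  linarith

theorem key_value (h : Adm d m r) {ρ R : ℝ} (hρ : 0 ≤ ρ) {s : ℤ} (hs : s = 1 ∨ s = -1) {k n N : ℕ} (hn : n ≤ N)
    (h1 : Gd d m r ρ R s k n) : |((key d m r s k n).1 : ℝ)| ≤ N * ρ ^ k + R := by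
  have hd : (0 : ℝ) < d := by have := h.two_le; positivity
  have e1 := iter_eq h k (s * n)
  have e2 : (d : ℝ) ^ k * |(((Tm d m r)^[k] (s * n) : ℤ) : ℝ)| =
      |(Mw m (wd d m r k (s * n)) : ℝ) * (s * n) - Ww d m r (wd d m r k (s * n))| := by
    have e3 : (((d : ℤ) ^ k * (Tm d m r)^[k] (s * n) : ℤ) : ℝ) = ((Mw m (wd d m r k (s * n)) * (s * n) - Ww d m r (wd d m r k (s * n)) : ℤ) : ℝ) := by
      rw [e1]
    push_cast at e3 ⊢
    rw [← e3, abs_mul, abs_of_pos (by positivity : (0 : ℝ) < (d : ℝ) ^ k)]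
  have e4 := abs_sub ((Mw m (wd d m r k (s * n)) : ℝ) * (s * n)) (Ww d m r (wd d m r k (s * n)))
  have e7 : |(s : ℝ)| = 1 := by rcases hs with rfl | rfl <;> simp
  rw [abs_mul, abs_mul (s : ℝ), e7, one_mul, Nat.abs_cast] at e4
  have e5 : |(Mw m (wd d m r k (s * n)) : ℝ)| * n ≤ (ρ * d) ^ k * N := by
    have : (n : ℝ) ≤ N := by exact_mod_cast hn
    exact mul_le_mul h1.1 this (Nat.cast_nonneg _) (by positivity)
  have e6 : (d : ℝ) ^ k * |(((Tm d m r)^[k] (s * n) : ℤ) : ℝ)| ≤ (d : ℝ) ^ k * (N * ρ ^ k + R) := by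
    have e8 : (d : ℝ) ^ k * (N * ρ ^ k + R) = (ρ * d) ^ k * N + R * (d : ℝ) ^ k := by rw [mul_pow]; ring
    rw [e8, e2]
    linarith [h1.2]
  exact le_of_mul_le_mul_left e6 (by positivity)

theorem key_image (h : Adm d m r) {ρ R : ℝ} (hρ : 0 ≤ ρ) (hR : 0 ≤ R) {s : ℤ} (hs : s = 1 ∨ s = -1) {k N : ℕ}
    (S : Finset ℕ) (hS : ∀ n ∈ S, n ≤ N ∧ Gd d m r ρ R s k n) :
    ((S.image (key d m r s k)).card : ℝ) ≤ (2 * (N * ρ ^ k + R) + 1) * ((k : ℝ) + 1) ^ d := by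
  set V : ℝ := N * ρ ^ k + R with hV
  have hV0 : 0 ≤ V := by positivity
  have hsub : S.image (key d m r s k) ⊆ (Icc (-⌊V⌋) ⌊V⌋) ×ˢ (Ms d m k) := by
    intro p hp
    rw [mem_image] at hp
    obtain ⟨n, hn, rfl⟩ := hp
    obtain ⟨hn1, hn2⟩ := hS n hn
    have h2 := key_value h hρ hs hn1 hn2
    rw [← hV] at h2
    have h3 := abs_le.1 h2
    rw [mem_product, mem_Icc]
    refine ⟨⟨?_, Int.le_floor.2 h3.2⟩, ?_⟩
    · have h4 : -(key d m r s k n).1 ≤ ⌊V⌋ := by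
        apply Int.le_floor.2
        push_cast
        linarith [h3.1]
      linarith
    · unfold key Ms
      exact mem_image_of_mem _ (wd_mem h.two_le k _)
  have h1 := card_le_card hsub
  rw [card_product, Int.card_Icc] at h1
  have h2 := card_Ms (d := d) (m := m) k
  have h3 : (((⌊V⌋ + 1 - -⌊V⌋).toNat : ℕ) : ℝ) ≤ 2 * V + 1 := by
    have h4 : 0 ≤ ⌊V⌋ := Int.floor_nonneg.2 hV0
    have h5 : (((⌊V⌋ + 1 - -⌊V⌋).toNat : ℤ) : ℝ) = ((⌊V⌋ + 1 - -⌊V⌋ : ℤ) : ℝ) := by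
      rw [Int.toNat_of_nonneg (by omega)]
    have h6 : (((⌊V⌋ + 1 - -⌊V⌋).toNat : ℕ) : ℝ) = ((⌊V⌋ + 1 - -⌊V⌋ : ℤ) : ℝ) := by exact_mod_cast h5
    rw [h6]
    push_cast
    have := Int.floor_le V
    linarith
  have h7 : ((S.image (key d m r s k)).card : ℝ) ≤ ((⌊V⌋ + 1 - -⌊V⌋).toNat : ℝ) * ((Ms d m k).card : ℝ) := by
    exact_mod_cast h1
  refine h7.trans ?_
  have h8 : ((Ms d m k).card : ℝ) ≤ ((k : ℝ) + 1) ^ d := by exact_mod_cast h2
  exact mul_le_mul h3 h8 (Nat.cast_nonneg _) (by positivity)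

open Classical in
/-- the bad integers are as many as the bad words -/
theorem bad_le (h : Adm d m r) {s : ℤ} (hs : s = 1 ∨ s = -1) {k N : ℕ} (hN : d ^ k ≤ N) {b : ℝ} (P : List ℕ → Prop)
    (hb : (((LW d k).filter P).card : ℝ) ≤ (d : ℝ) ^ k * b) (S : Finset ℕ)
    (hS : ∀ n ∈ S, (1 ≤ n ∧ n ≤ N) ∧ P (wd d m r k (s * n))) : (S.card : ℝ) ≤ 2 * N * b := by
  set q := d ^ k with hq
  have hd0 : 0 < d := by have := h.two_le; omega
  have hq0 : 0 < q := by positivity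
  set Bq := (range q).filter fun n : ℕ => P (wd d m r k (s * n)) with hB
  have hsub : S ⊆ (Bq ×ˢ range (N / q + 1)).image fun p : ℕ × ℕ => p.1 + q * p.2 := by
    intro n hn
    obtain ⟨⟨hn1, hn2⟩, hn3⟩ := hS n hn
    rw [mem_image]
    refine ⟨(n % q, n / q), ?_, Nat.mod_add_div n q⟩
    rw [mem_product, hB, mem_filter, mem_range, mem_range]
    refine ⟨⟨Nat.mod_lt _ hq0, ?_⟩, Nat.lt_succ_of_le (Nat.div_le_div_right hn2)⟩
    have e := wd_s (m := m) (r := r) h.two_le s k (n % q) (n / q)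
    rw [← hq, Nat.mod_add_div n q] at e
    dsimp only
    rw [← e]
    exact hn3
  have h1 : S.card ≤ Bq.card * (N / q + 1) := by
    refine (card_le_card hsub).trans (card_image_le.trans ?_)
    rw [card_product, card_range]
  have h2 : (Bq.card : ℝ) ≤ q * b := by
    have h3 : Bq.card ≤ ((LW d k).filter P).card := by
      apply card_le_card_of_injOn (fun n : ℕ => wd d m r k (s * n))
      · intro n hn
        rw [mem_coe, hB, mem_filter] at hn
        rw [mem_coe, mem_filter]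
        exact ⟨wd_mem h.two_le k _, hn.2⟩
      · intro n hn n' hn' e
        rw [mem_coe, hB, mem_filter, mem_range] at hn hn'
        have h4 := wd_cong h e
        have h5 : (d : ℤ) ^ k ∣ (n : ℤ) - n' := by
          rcases hs with rfl | rfl
          · simpa using h4
          · have h6 : (-1 : ℤ) * n - -1 * n' = -((n : ℤ) - n') := by ring
            rw [h6] at h4
            exact (Int.dvd_neg).1 h4
        have h7 : (q : ℤ) ∣ (n : ℤ) - n' := by rw [hq]; push_cast; exact h5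
        have h8 : (n : ℤ) - n' = 0 := by
          apply Int.eq_zero_of_abs_lt_dvd h7
          rw [abs_lt]
          constructor <;> omega
        omega
    have h9 : (Bq.card : ℝ) ≤ (((LW d k).filter P).card : ℝ) := by exact_mod_cast h3
    refine h9.trans (hb.trans (le_of_eq ?_))
    rw [hq]; push_cast; ring
  have hb0 : 0 ≤ b := by
    by_contra hneg
    push Not at hneg
    have h10 : (0 : ℝ) ≤ (d : ℝ) ^ k * b := (Nat.cast_nonneg _).trans hb
    have h11 : (0 : ℝ) < (d : ℝ) ^ k := by positivity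
    nlinarith
  have h3 : ((N / q + 1 : ℕ) : ℝ) * q ≤ 2 * N := by
    have h4 : (N / q + 1) * q ≤ 2 * N := by
      have := Nat.div_mul_le_self N q
      nlinarith
    exact_mod_cast h4
  have h5 : (S.card : ℝ) ≤ Bq.card * ((N / q + 1 : ℕ) : ℝ) := by exact_mod_cast h1
  calc (S.card : ℝ) ≤ _ := h5
    _ ≤ (q * b) * ((N / q + 1 : ℕ) : ℝ) := mul_le_mul_of_nonneg_right h2 (Nat.cast_nonneg _)
    _ = (((N / q + 1 : ℕ) : ℝ) * q) * b := by ring
    _ ≤ (2 * N) * b := mul_le_mul_of_nonneg_right h3 hb0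

end Pool.Agent.Y965.GP
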