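import Pool.Agent.Y965.GP.Map

/-! Moments of the multipliers and of the offsets; choice of the parameters. -/

set_option autoImplicit false

namespace Pool.Agent.Y965.GP

open Finset Pool.Agent.H319R3.GC Pool.Agent.Y965.PS

variable {d : ℕ} {m r : ℕ → ℤ}

theorem exists_lam (h : Adm d m r) : ∃ lam : ℝ, 0 < lam ∧ lam ≤ 1 ∧
    ∑ i ∈ range d, |(m i : ℝ)| ^ lam < (d : ℝ) * (d : ℝ) ^ lam := by
  have hd : (0 : ℝ) < d := by have := h.two_le; positivity
  have hpos : ∀ i ∈ range d, 0 < |(m i : ℝ)| := by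
    intro i hi
    rw [abs_pos]
    exact_mod_cast m_ne h (mem_range.1 hi)
  let f : ℝ → ℝ := fun t => ∑ i ∈ range d, Real.exp (Real.log |(m i : ℝ)| * t)
    - d * Real.exp (Real.log d * t)
  have hder : HasDerivAt f (∑ i ∈ range d, Real.log |(m i : ℝ)| - d * Real.log d) 0 := by
    have h1 : ∀ c : ℝ, HasDerivAt (fun t : ℝ => Real.exp (c * t)) c 0 := by
      intro c
      have h2 : HasDerivAt (fun t : ℝ => c * t) (c * 1) 0 := (hasDerivAt_id 0).const_mul c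
      have h3 := h2.exp
      simpa using h3
    exact (HasDerivAt.fun_sum fun i _ => h1 _).sub ((h1 _).const_mul _)
  have hlog : ∑ i ∈ range d, Real.log |(m i : ℝ)| - d * Real.log d < 0 := by
    have h1 : ∑ i ∈ range d, Real.log |(m i : ℝ)| = Real.log (Pool.Agent.H319R3.GC.PP d m : ℝ) := by
      rw [Pool.Agent.H319R3.GC.PP, Nat.cast_prod, Real.log_prod]
      · refine Finset.sum_congr rfl fun i _ => ?_
        rw [Nat.cast_natAbs, Int.cast_abs]
      · intro i hi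
        rw [Nat.cast_natAbs, Int.cast_abs]
        exact (hpos i hi).ne'
    rw [h1, sub_neg, ← Real.log_pow]
    have h2 : (0 : ℝ) < Pool.Agent.H319R3.GC.PP d m := by have := h.big; positivity
    exact Real.log_lt_log h2 (by exact_mod_cast h.contr)
  have hslope := hasDerivAt_iff_tendsto_slope.1 hder
  have hev : ∀ᶠ t in nhdsWithin (0 : ℝ) {0}ᶜ, slope f 0 t < 0 :=
    hslope.eventually (gt_mem_nhds hlog)
  have hev2 : ∀ᶠ t in nhdsWithin (0 : ℝ) (Set.Ioi 0), slope f 0 t < 0 :=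
    hev.filter_mono (nhdsWithin_mono _ fun x hx => ne_of_gt hx)
  have hev3 : ∀ᶠ t in nhdsWithin (0 : ℝ) (Set.Ioi 0), t ∈ Set.Ioc (0 : ℝ) 1 :=
    Ioc_mem_nhdsGT one_pos
  obtain ⟨t, ht, ht0, ht1⟩ := (hev2.and hev3).exists
  refine ⟨t, ht0, ht1, ?_⟩
  have hf0 : f 0 = 0 := by simp [f]
  rw [slope_def_field, hf0, sub_zero, sub_zero] at ht
  have hft : f t < 0 := by
    by_contra hc
    push Not at hc
    exact absurd ht (not_lt.2 (div_nonneg hc ht0.le))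
  have h2 : ∑ i ∈ range d, |(m i : ℝ)| ^ t = ∑ i ∈ range d, Real.exp (Real.log |(m i : ℝ)| * t) :=
    Finset.sum_congr rfl fun i hi => Real.rpow_def_of_pos (hpos i hi) t
  rw [h2, Real.rpow_def_of_pos hd]
  have : f t = ∑ i ∈ range d, Real.exp (Real.log |(m i : ℝ)| * t)
    - d * Real.exp (Real.log d * t) := rfl
  linarith

theorem sum_Mw_rpow (lam : ℝ) (k : ℕ) :
    ∑ w ∈ LW d k, |(Mw m w : ℝ)| ^ lam = (∑ i ∈ range d, |(m i : ℝ)| ^ lam) ^ k := by
  induction k with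
  | zero => simp [LW, Mw]
  | succ k ih =>
    rw [sum_LW_succ, pow_succ', Finset.sum_mul]
    refine Finset.sum_congr rfl fun i _ => ?_
    rw [← ih, Finset.mul_sum]
    refine Finset.sum_congr rfl fun w _ => ?_
    have : Mw m (i :: w) = m i * Mw m w := by simp [Mw]
    rw [this, Int.cast_mul, abs_mul, Real.mul_rpow (abs_nonneg _) (abs_nonneg _)]

theorem sum_Ww_rpow {lam : ℝ} (h0 : 0 < lam) (h1 : lam ≤ 1)
    (hS : ∑ i ∈ range d, |(m i : ℝ)| ^ lam < (d : ℝ) * (d : ℝ) ^ lam) (k : ℕ) :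
    ∑ w ∈ LW d k, |(Ww d m r w : ℝ)| ^ lam ≤
      (∑ i ∈ range d, |(r i : ℝ)| ^ lam) *
        (((d : ℝ) * (d : ℝ) ^ lam) ^ k - (∑ i ∈ range d, |(m i : ℝ)| ^ lam) ^ k) /
        ((d : ℝ) * (d : ℝ) ^ lam - ∑ i ∈ range d, |(m i : ℝ)| ^ lam) := by
  set S := ∑ i ∈ range d, |(m i : ℝ)| ^ lam with hSdef
  set D := (d : ℝ) * (d : ℝ) ^ lam with hD
  set A := ∑ i ∈ range d, |(r i : ℝ)| ^ lam with hA
  have hDS : 0 < D - S := sub_pos.2 hS
  induction k with
  | zero => simp [LW, Ww, Real.zero_rpow h0.ne']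
  | succ k ih =>
    rw [sum_LW_succ]
    have hstep : ∑ i ∈ range d, ∑ w ∈ LW d k, |(Ww d m r (i :: w) : ℝ)| ^ lam ≤
        ∑ i ∈ range d, ∑ w ∈ LW d k,
          (|(r i : ℝ)| ^ lam * |(Mw m w : ℝ)| ^ lam + (d : ℝ) ^ lam * |(Ww d m r w : ℝ)| ^ lam) := by
      refine Finset.sum_le_sum fun i _ => Finset.sum_le_sum fun w _ => ?_
      have e : (Ww d m r (i :: w) : ℝ) = r i * Mw m w + d * Ww d m r w := by
        simp [Ww]
      rw [e, ← Real.mul_rpow (abs_nonneg _) (abs_nonneg _), ← abs_mul,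
        ← Real.mul_rpow (Nat.cast_nonneg d) (abs_nonneg _)]
      have e2 : (d : ℝ) * |(Ww d m r w : ℝ)| = |(d : ℝ) * Ww d m r w| := by
        rw [abs_mul, Nat.abs_cast]
      rw [e2]
      refine (Real.rpow_le_rpow (abs_nonneg _) (abs_add_le _ _) h0.le).trans ?_
      exact Real.rpow_add_le_add_rpow (abs_nonneg _) (abs_nonneg _) h0.le h1
    refine hstep.trans ?_
    have e3 : ∑ i ∈ range d, ∑ w ∈ LW d k,
          (|(r i : ℝ)| ^ lam * |(Mw m w : ℝ)| ^ lam + (d : ℝ) ^ lam * |(Ww d m r w : ℝ)| ^ lam)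
        = A * S ^ k + D * ∑ w ∈ LW d k, |(Ww d m r w : ℝ)| ^ lam := by
      rw [hSdef, ← sum_Mw_rpow (m := m) lam k, hA, Finset.sum_mul_sum]
      simp only [Finset.sum_add_distrib, Finset.sum_const, card_range, nsmul_eq_mul,
        ← Finset.mul_sum]
      rw [hD, mul_assoc]
    rw [e3]
    have h2 : D * ∑ w ∈ LW d k, |(Ww d m r w : ℝ)| ^ lam ≤
        D * (A * (D ^ k - S ^ k) / (D - S)) := by
      apply mul_le_mul_of_nonneg_left ih
      positivity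
    have e4 : A * S ^ k + D * (A * (D ^ k - S ^ k) / (D - S)) =
        A * (D ^ (k + 1) - S ^ (k + 1)) / (D - S) := by
      field_simp
      ring
    linarith

open Classical in
theorem markov_w (k : ℕ) (f : List ℕ → ℝ) {lam T : ℝ} (h0 : 0 < lam) (hT : 0 ≤ T) :
    (((LW d k).filter fun w => ¬ |f w| ≤ T).card : ℝ) * T ^ lam ≤ ∑ w ∈ LW d k, |f w| ^ lam := by
  set F := (LW d k).filter fun w => ¬ |f w| ≤ T with hF
  calc (F.card : ℝ) * T ^ lam = ∑ w ∈ F, T ^ lam := by rw [Finset.sum_const, nsmul_eq_mul]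
    _ ≤ ∑ w ∈ F, |f w| ^ lam := by
      refine Finset.sum_le_sum fun w hw => ?_
      exact Real.rpow_le_rpow hT (not_le.1 (Finset.mem_filter.1 hw).2).le h0.le
    _ ≤ _ := Finset.sum_le_sum_of_subset_of_nonneg (Finset.filter_subset _ _)
      fun w _ _ => Real.rpow_nonneg (abs_nonneg _) _

/-- THE KEY OF A GENERALISED COLLATZ MAP -/
theorem kd (h : Adm d m r) : ∃ σ ρ C0 lam : ℝ, 0 < σ ∧ σ < 1 ∧ 0 ≤ ρ ∧ ρ ≤ σ ∧ 0 ≤ C0 ∧ 0 < lam ∧ lam ≤ 1 ∧
    ∀ s : ℤ, (s = 1 ∨ s = -1) → ∀ (k N : ℕ) (R : ℝ), d ^ k ≤ N → 1 ≤ R →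
      KD N (d ^ k) (2 * R * (d : ℝ) ^ k) ((2 * (N * σ ^ k + R) + 1) * ((k : ℝ) + 1) ^ d)
        (2 * N * (σ ^ k + C0 * R ^ (-lam))) (Gd d m r ρ R s k) (key d m r s k) := by
  classical
  obtain ⟨lam, h0, h1, hS⟩ := exists_lam h
  have hd : (0 : ℝ) < d := by have := h.two_le; positivity
  have hd1 : (1 : ℝ) ≤ d := by have := h.two_le; exact_mod_cast (by omega : 1 ≤ d)
  have hpos : ∀ i ∈ range d, 0 < |(m i : ℝ)| := by
    intro i hi
    rw [abs_pos]
    exact_mod_cast m_ne h (mem_range.1 hi)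
  set S := ∑ i ∈ range d, |(m i : ℝ)| ^ lam with hSdef
  set D := (d : ℝ) * (d : ℝ) ^ lam with hD
  set A := ∑ i ∈ range d, |(r i : ℝ)| ^ lam with hA
  have hDS : 0 < D - S := sub_pos.2 hS
  have hD0 : 0 < D := by positivity
  have hA0 : 0 ≤ A := Finset.sum_nonneg fun i _ => Real.rpow_nonneg (abs_nonneg _) _
  have hS0 : 0 < S := by
    apply Finset.sum_pos (fun i hi => Real.rpow_pos_of_pos (hpos i hi) _)
    rw [nonempty_range_iff]
    have := h.two_le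
    omega
  set σ := Real.sqrt (S / D) with hσ
  have hq0 : 0 < S / D := by positivity
  have hq1 : S / D < 1 := (div_lt_one hD0).2 hS
  have hσ0 : 0 < σ := Real.sqrt_pos.2 hq0
  have hσ2 : σ ^ 2 = S / D := Real.sq_sqrt hq0.le
  have hσ1 : σ < 1 := by nlinarith
  set ρ := σ ^ (1 / lam) with hρ
  have hρ0 : 0 < ρ := Real.rpow_pos_of_pos hσ0 _
  have hρl : ρ ^ lam = σ := by
    rw [hρ, ← Real.rpow_mul hσ0.le, one_div, inv_mul_cancel₀ h0.ne', Real.rpow_one]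
  have hρσ : ρ ≤ σ := by
    calc ρ ≤ σ ^ (1 : ℝ) := Real.rpow_le_rpow_of_exponent_ge hσ0 hσ1.le (by rw [le_div_iff₀ h0]; linarith)
      _ = σ := Real.rpow_one _
  refine ⟨σ, ρ, A / (D - S), lam, hσ0, hσ1, hρ0.le, hρσ, by positivity, h0, h1, ?_⟩
  intro s hs k N R hkN hR
  have hdk : (1 : ℝ) ≤ (d : ℝ) ^ k := one_le_pow₀ hd1
  refine ⟨?_, ?_, ?_, ?_, ?_, ?_, ?_⟩
  · have := h.two_le
    exact Nat.one_le_pow _ _ (by omega)
  · nlinarith
  · intro n v
    exact gd_shift h.two_le ρ R s k n v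
  · intro n u v g1 g2
    have e : n + d ^ k * v + u = (n + u) + d ^ k * v := by ring
    rw [e, key_shift h, key_shift h]
    constructor
    · intro hk
      rw [Prod.mk.injEq] at hk
      obtain ⟨a1, a2⟩ := hk
      rw [a2] at a1
      ext
      · linarith
      · exact a2
    · intro hk
      rw [hk]
  · intro n u g1 g2 hk
    exact key_small h hs g1 g2 hk
  · intro S' hS'
    refine (key_image h hρ0.le (by linarith) hs S' hS').trans ?_
    have h3 : ρ ^ k ≤ σ ^ k := pow_le_pow_left₀ hρ0.le hρσ k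
    gcongr
  · intro S' hS'
    refine bad_le h hs hkN (fun w => ¬ (|(Mw m w : ℝ)| ≤ (ρ * d) ^ k ∧ |(Ww d m r w : ℝ)| ≤ R * (d : ℝ) ^ k)) ?_ S' hS'
    -- the two kinds of bad words
    have c1 : (((LW d k).filter fun w => ¬ |(Mw m w : ℝ)| ≤ (ρ * d) ^ k).card : ℝ) ≤ (d : ℝ) ^ k * σ ^ k := by
      have m1 := markov_w (d := d) k (fun w => (Mw m w : ℝ)) h0 (T := (ρ * d) ^ k) (by positivity)
      rw [sum_Mw_rpow, ← hSdef] at m1
      have e1 : ((ρ * (d : ℝ)) ^ k) ^ lam = (σ * (d : ℝ) ^ lam) ^ k := by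
        rw [← Real.rpow_natCast, ← Real.rpow_mul (by positivity), mul_comm (k : ℝ) lam, Real.rpow_mul (by positivity),
          Real.rpow_natCast, Real.mul_rpow hρ0.le hd.le, hρl]
      rw [e1] at m1
      have e2 : S ^ k = ((d : ℝ) ^ k * σ ^ k) * (σ * (d : ℝ) ^ lam) ^ k := by
        rw [← mul_pow, ← mul_pow]
        congr 1
        have : S = D * σ ^ 2 := by rw [hσ2]; field_simp
        rw [this, hD]; ring
      rw [e2] at m1
      exact le_of_mul_le_mul_right m1 (by positivity)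
    have c2 : (((LW d k).filter fun w => ¬ |(Ww d m r w : ℝ)| ≤ R * (d : ℝ) ^ k).card : ℝ) ≤ (d : ℝ) ^ k * (A / (D - S) * R ^ (-lam)) := by
      have m1 := markov_w (d := d) k (fun w => (Ww d m r w : ℝ)) h0 (T := R * (d : ℝ) ^ k) (by positivity)
      have m2 := m1.trans (sum_Ww_rpow h0 h1 hS k)
      rw [← hSdef, ← hD, ← hA] at m2
      have e1 : (R * (d : ℝ) ^ k) ^ lam = R ^ lam * ((d : ℝ) ^ lam) ^ k := by
        rw [Real.mul_rpow (by linarith) (by positivity)]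
        congr 1
        rw [← Real.rpow_natCast, ← Real.rpow_mul hd.le, mul_comm (k : ℝ) lam, Real.rpow_mul hd.le, Real.rpow_natCast]
      rw [e1] at m2
      have hRl : 0 < R ^ lam := Real.rpow_pos_of_pos (by linarith) _
      have e2 : A * (D ^ k - S ^ k) / (D - S) ≤ ((d : ℝ) ^ k * (A / (D - S) * R ^ (-lam))) * (R ^ lam * ((d : ℝ) ^ lam) ^ k) := by
        have e3 : ((d : ℝ) ^ k * (A / (D - S) * R ^ (-lam))) * (R ^ lam * ((d : ℝ) ^ lam) ^ k) = A * D ^ k / (D - S) := by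
          rw [Real.rpow_neg (by linarith), hD, mul_pow]
          field_simp
        rw [e3]
        apply div_le_div_of_nonneg_right _ hDS.le
        apply mul_le_mul_of_nonneg_left _ hA0
        have : 0 ≤ S ^ k := by positivity
        linarith
      exact le_of_mul_le_mul_right (m2.trans e2) (by positivity)
    have hsub : ((LW d k).filter fun w => ¬ (|(Mw m w : ℝ)| ≤ (ρ * d) ^ k ∧ |(Ww d m r w : ℝ)| ≤ R * (d : ℝ) ^ k)) ⊆
        ((LW d k).filter fun w => ¬ |(Mw m w : ℝ)| ≤ (ρ * d) ^ k) ∪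
          ((LW d k).filter fun w => ¬ |(Ww d m r w : ℝ)| ≤ R * (d : ℝ) ^ k) := by
      intro w hw
      rw [mem_filter] at hw
      rw [mem_union, mem_filter, mem_filter]
      by_contra hcon
      push Not at hcon
      exact hw.2 ⟨hcon.1 hw.1, hcon.2 hw.1⟩
    have h3 := (card_le_card hsub).trans (card_union_le _ _)
    have h4 : (((LW d k).filter fun w => ¬ (|(Mw m w : ℝ)| ≤ (ρ * d) ^ k ∧ |(Ww d m r w : ℝ)| ≤ R * (d : ℝ) ^ k)).card : ℝ) ≤
        (((LW d k).filter fun w => ¬ |(Mw m w : ℝ)| ≤ (ρ * d) ^ k).card : ℝ) +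
          (((LW d k).filter fun w => ¬ |(Ww d m r w : ℝ)| ≤ R * (d : ℝ) ^ k).card : ℝ) := by exact_mod_cast h3
    have h5 : (((LW d k).filter fun w => ¬ (|(Mw m w : ℝ)| ≤ (ρ * d) ^ k ∧ |(Ww d m r w : ℝ)| ≤ R * (d : ℝ) ^ k)).card : ℝ) ≤
        (d : ℝ) ^ k * (σ ^ k + A / (D - S) * R ^ (-lam)) := by
      rw [mul_add]
      exact h4.trans (add_le_add c1 c2)
    have h6 : ∀ (i1 i2 : DecidablePred fun w : List ℕ => ¬ (|(Mw m w : ℝ)| ≤ (ρ * d) ^ k ∧ |(Ww d m r w : ℝ)| ≤ R * (d : ℝ) ^ k)),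
        (@Finset.filter _ (fun w : List ℕ => ¬ (|(Mw m w : ℝ)| ≤ (ρ * d) ^ k ∧ |(Ww d m r w : ℝ)| ≤ R * (d : ℝ) ^ k)) i1 (LW d k)).card
          = (@Finset.filter _ (fun w : List ℕ => ¬ (|(Mw m w : ℝ)| ≤ (ρ * d) ^ k ∧ |(Ww d m r w : ℝ)| ≤ R * (d : ℝ) ^ k)) i2 (LW d k)).card := by
      intro i1 i2
      congr!
    rw [h6 _ _] at h5
    exact h5

end Pool.Agent.Y965.GP
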